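import Pool.Agent.Helper15.CY.Period

set_option autoImplicit false
open Nat Filter N9cdb51e1

namespace Pool.Agent.Helper15.CY

open Finset Pool.Agent.Helper51.Phi

/-- A chain: the odd parts in one period of a tail are `h^[i] (p^(e-1) q)`, `i ≤ s`, the last one is `p^e`. -/
def Chain (p e q s : ℕ) : Prop :=
  p.Prime ∧ p % 8 = 7 ∧ 1 ≤ e ∧ 4 * q + 1 = 3 * p ∧ 1 ≤ s ∧ h^[s] (p ^ (e - 1) * q) = p ^ e ∧
    ∀ i < s + 1, Odd (h^[i] (p ^ (e - 1) * q))

lemma Chain.three_le {p e q s : ℕ} (H : Chain p e q s) : 3 ≤ p ^ (e - 1) * q := by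
  obtain ⟨hp, hp8, -, hq, -⟩ := H
  have hpe1 : 1 ≤ p ^ (e - 1) := Nat.one_le_pow _ _ hp.pos
  have hq5 : 5 ≤ q := by omega
  nlinarith

/-- The end is at most twice the beginning. -/
lemma Chain.end_le {p e q s : ℕ} (H : Chain p e q s) : 5 * p ^ e ≤ 7 * (p ^ (e - 1) * q) := by
  obtain ⟨hp, hp8, he, hq, -⟩ := H
  obtain ⟨f, rfl⟩ : ∃ f, e = f + 1 := ⟨e - 1, by omega⟩
  rw [Nat.add_sub_cancel, pow_succ]
  have h1 : 5 * p ≤ 7 * q := by omega
  calc 5 * (p ^ f * p) = p ^ f * (5 * p) := by ring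
    _ ≤ p ^ f * (7 * q) := Nat.mul_le_mul_left _ h1
    _ = _ := by ring

lemma iter_mono {c : ℕ} {i j : ℕ} (hij : i ≤ j) : h^[i] c ≤ h^[j] c := by
  obtain ⟨k, rfl⟩ : ∃ k, j = k + i := ⟨j - i, by omega⟩
  rw [Function.iterate_add_apply]
  exact h_iter_ge k _

/-- The values of the orbit, after the power of `p`. -/
lemma Chain.ret {n j l p e q s : ℕ} (hl : 1 ≤ l) (H : Chain p e q s) (hj : g^[j] n = 2 ^ l * p ^ e) (m i : ℕ) (hi : i ≤ s) :
    g^[i + ((j + m * (s + 1)) + 1)] n = 2 ^ (l + m + 1) * h^[i] (p ^ (e - 1) * q) := by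
  have hc3 := H.three_le
  obtain ⟨hp, hp8, he, hq, hs, hend, hodd⟩ := H
  set c0 := p ^ (e - 1) * q with hc0
  have hret : ∀ m, g^[j + m * (s + 1)] n = 2 ^ (l + m) * p ^ e := by
    intro m
    induction m with
    | zero => simpa using hj
    | succ m ih =>
      rw [show j + (m + 1) * (s + 1) = s + ((j + m * (s + 1)) + 1) by ring, Function.iterate_add_apply,
        Function.iterate_succ_apply', ih, g_jump (by omega) hp hp8 he hq, ← hc0,
        g_iter_h (by omega) hc3 s (fun i hi => hodd i (by omega)), hend]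
      ring
  rw [Function.iterate_add_apply, Function.iterate_succ_apply', hret, g_jump (by omega) hp hp8 he hq, ← hc0,
    g_iter_h (by omega) hc3 i (fun i' hi' => hodd i' (by omega))]

/-- All later terms. -/
lemma Chain.all {n j l p e q s : ℕ} (hl : 1 ≤ l) (H : Chain p e q s) (hj : g^[j] n = 2 ^ l * p ^ e) (t : ℕ) :
    ∃ l' i, 1 ≤ l' ∧ i ≤ s ∧ g^[j + t] n = 2 ^ l' * h^[i] (p ^ (e - 1) * q) := by
  have hc3 := H.three_le
  obtain ⟨hp, hp8, he, hq, hs, hend, hodd⟩ := H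
  induction t with
  | zero => exact ⟨l, s, hl, le_rfl, by rw [hend]; exact hj⟩
  | succ t ih =>
    obtain ⟨l', i, hl', hi, hti⟩ := ih
    rcases Nat.eq_or_lt_of_le hi with his | his
    · refine ⟨l' + 1, 0, by omega, Nat.zero_le _, ?_⟩
      rw [show j + (t + 1) = (j + t) + 1 by ring, Function.iterate_succ_apply', hti, his, hend,
        g_jump hl' hp hp8 he hq]
      rfl
    · refine ⟨l', i + 1, hl', his, ?_⟩
      rw [show j + (t + 1) = (j + t) + 1 by ring, Function.iterate_succ_apply', hti,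
        g_step hl' (hodd i (by omega)) (hc3.trans (h_iter_ge i _)), Function.iterate_succ_apply']

lemma two_all {n j l : ℕ} (hl : 1 ≤ l) (hj : g^[j] n = 2 ^ l * 2) (t : ℕ) :
    (∃ l', 2 ≤ l' ∧ g^[j + t] n = 2 ^ l' * 1) ∨ (∃ l', 1 ≤ l' ∧ g^[j + t] n = 2 ^ l' * 3) := by
  induction t with
  | zero => exact Or.inl ⟨l + 1, by omega, by rw [pow_succ, mul_one]; exact hj⟩
  | succ t ih =>
    rcases ih with ⟨l', hl', hti⟩ | ⟨l', hl', hti⟩
    · right
      refine ⟨l' - 1, by omega, ?_⟩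
      rw [show j + (t + 1) = (j + t) + 1 by ring, Function.iterate_succ_apply', hti, mul_one, g_pow_two (by omega)]
    · left
      refine ⟨l' + 2, by omega, ?_⟩
      rw [show j + (t + 1) = (j + t) + 1 by ring, Function.iterate_succ_apply', hti,
        g_step hl' (by decide) (by norm_num), show h 3 = 4 by decide, pow_add, mul_one]
      rfl

/-- `m` is a term of the tail of a solution: the relation holds from `m` on. -/
def IsTail (m : ℕ) : Prop := ∃ r, 0 < r ∧ ∀ k, g^[k + r] m = 2 * g^[k] m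

lemma odd_compl {l c : ℕ} (hc : Odd c) : ordCompl[2] (2 ^ l * c) = c := by
  rw [Nat.ordCompl_self_pow_mul c l Nat.prime_two, Nat.ordCompl_eq_self_iff_zero_or_not_dvd c Nat.prime_two]
  right
  rw [← even_iff_two_dvd, Nat.not_even_iff_odd]
  exact hc

/-- The odd parts of tails. -/
def S (c : ℕ) : Prop := c = 1 ∨ c = 3 ∨ ∃ p e q s i, Chain p e q s ∧ i ≤ s ∧ c = h^[i] (p ^ (e - 1) * q)

lemma tail_S {m : ℕ} (hm : 0 < m) (H : IsTail m) : S (ordCompl[2] m) := by
  obtain ⟨r, hr, hk⟩ := H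
  have hpow : ∀ k, g^[k * r] m = 2 ^ k * m := by
    intro k
    induction k with
    | zero => simp
    | succ k ih =>
      rw [Nat.succ_mul, hk, ih]
      ring
  rcases forward hm hr (Filter.Eventually.of_forall hk) with ⟨-, j, l, hl, hj⟩ |
    ⟨j, l, p, e, q, hl, hp, hp8, he, hq, hqo, hr2, hj, hend, hodd⟩
  · obtain ⟨t, ht⟩ : ∃ t, j * r = j + t := ⟨j * r - j, by nlinarith [Nat.le_mul_of_pos_right j hr, Nat.sub_add_cancel (Nat.le_mul_of_pos_right j hr)]⟩
    have h1 := hpow j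
    rw [ht] at h1
    rcases two_all hl hj t with ⟨l', -, h2⟩ | ⟨l', -, h2⟩
    · left
      rw [← Nat.ordCompl_self_pow_mul m j Nat.prime_two, ← h1, h2, odd_compl (by decide)]
    · right; left
      rw [← Nat.ordCompl_self_pow_mul m j Nat.prime_two, ← h1, h2, odd_compl (by decide)]
  · right; right
    have HC : Chain p e q (r - 1) := ⟨hp, hp8, he, hq, by omega, hend, fun i hi => hodd i (by omega)⟩
    obtain ⟨t, ht⟩ : ∃ t, j * r = j + t := ⟨j * r - j, by nlinarith [Nat.le_mul_of_pos_right j hr, Nat.sub_add_cancel (Nat.le_mul_of_pos_right j hr)]⟩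
    have h1 := hpow j
    rw [ht] at h1
    obtain ⟨l', i, -, hi, h2⟩ := HC.all hl hj t
    refine ⟨p, e, q, r - 1, i, HC, hi, ?_⟩
    rw [← Nat.ordCompl_self_pow_mul m j Nat.prime_two, ← h1, h2]
    rcases Nat.lt_or_ge i r with h3 | h3
    · exact odd_compl (hodd i h3)
    · omega

/-- A long chain is very large. -/
theorem chain_size : ∃ c : ℝ, 0 < c ∧ ∀ {p e q s : ℕ}, Chain p e q s → 2 ≤ s →
    (∃ i < s, 46 ≤ (h^[i] (p ^ (e - 1) * q)).primeFactors.card ∧ Real.exp (c * s) ≤ (h^[i] (p ^ (e - 1) * q)).primeFactors.card) ∧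
      Real.exp (Real.exp (c * s)) ≤ ((p ^ (e - 1) * q : ℕ) : ℝ) := by
  obtain ⟨c, hc, hmain⟩ := many_primes
  refine ⟨c, hc, ?_⟩
  intro p e q s H hs
  have hc3 := H.three_le
  have hle := H.end_le
  obtain ⟨hp, hp8, he, hq, hs1, hend, hodd⟩ := H
  obtain ⟨i, hi, h46, hexp⟩ := hmain hp hp8 he hq hs hend (fun i hi => hodd i (by omega))
  refine ⟨⟨i, hi, h46, hexp⟩, ?_⟩
  set b := h^[i] (p ^ (e - 1) * q) with hb
  set M := b.primeFactors.card with hM
  have hb0 : b ≠ 0 := by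
    have := h_iter_ge i (p ^ (e - 1) * q)
    omega
  have h1 : 3 ^ M ≤ b := by
    refine le_trans ?_ (prod_pf_le hb0)
    rw [hM, ← Finset.prod_const]
    refine Finset.prod_le_prod' fun y hy => ?_
    have h2 := odd_primeFactors (hodd i (by omega)) y hy
    have := h2.1.two_le
    omega
  have h2 : b ≤ p ^ e := by
    rw [← hend]
    exact iter_mono hi.le
  have h3 : 5 * 3 ^ M ≤ 7 * (p ^ (e - 1) * q) := by omega
  have h4 : (5 : ℝ) * 3 ^ M ≤ 7 * ((p ^ (e - 1) * q : ℕ) : ℝ) := by exact_mod_cast h3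
  have hM46 : (46 : ℝ) ≤ M := by exact_mod_cast h46
  have h5 : (7 / 5 : ℝ) * Real.exp M ≤ 3 ^ M := by
    have e1 : Real.exp 1 * 1.1 ≤ 3 := by
      have := Real.exp_one_lt_d9
      linarith
    have e2 : Real.exp M = Real.exp 1 ^ M := by rw [← Real.exp_nat_mul, mul_one]
    have e3 : (7 / 5 : ℝ) ≤ 1.1 ^ M := by
      have := one_add_mul_le_pow (show (-2 : ℝ) ≤ 0.1 by norm_num) M
      have h6 : (1 + 0.1 : ℝ) = 1.1 := by norm_num
      rw [h6] at this
      linarith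
    calc (7 / 5 : ℝ) * Real.exp M ≤ 1.1 ^ M * Real.exp 1 ^ M := by
          rw [e2]
          exact mul_le_mul_of_nonneg_right e3 (by positivity)
      _ = (Real.exp 1 * 1.1) ^ M := by rw [mul_pow]; ring
      _ ≤ 3 ^ M := pow_le_pow_left₀ (by positivity) e1 M
  have h6 : Real.exp M ≤ ((p ^ (e - 1) * q : ℕ) : ℝ) := by linarith
  exact (Real.exp_le_exp.mpr hexp).trans h6

end Pool.Agent.Helper15.CY
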