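import Pool.Agent.Helper15.CY.Count

set_option autoImplicit false
open Nat Filter N9cdb51e1

namespace Pool.Agent.Helper15.CY

open Finset Pool.Agent.Helper51.Phi

open Classical in
/-- The prime powers up to `z`. -/
noncomputable def PW (z : ℕ) : Finset ℕ := (range (z + 1)).filter IsPrimePow

lemma PW_sub (z : ℕ) : PW z ⊆ (range (z + 1)).filter Nat.Prime ∪
    ((range (Nat.sqrt z + 1)) ×ˢ (range (Nat.log 2 z + 1))).image (fun u => u.1 ^ u.2) := by
  classical
  intro n hn
  rw [PW, Finset.mem_filter, Finset.mem_range] at hn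
  obtain ⟨hnz, hpp⟩ := hn
  rw [isPrimePow_nat_iff] at hpp
  obtain ⟨p, k, hp, hk, rfl⟩ := hpp
  rw [Finset.mem_union]
  rcases Nat.lt_or_ge k 2 with h1 | h1
  · left
    have : k = 1 := by omega
    subst this
    rw [pow_one] at hnz ⊢
    rw [Finset.mem_filter, Finset.mem_range]
    exact ⟨hnz, hp⟩
  · right
    rw [Finset.mem_image]
    refine ⟨(p, k), ?_, rfl⟩
    rw [Finset.mem_product, Finset.mem_range, Finset.mem_range]
    have h2 : p ^ 2 ≤ z := le_trans (Nat.pow_le_pow_right hp.pos h1) (by omega)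
    have h3 : 2 ^ k ≤ z := le_trans (Nat.pow_le_pow_left hp.two_le k) (by omega)
    constructor
    · have : p ≤ Nat.sqrt z := Nat.le_sqrt'.mpr h2
      simpa using Nat.lt_succ_of_le this
    · have : k ≤ Nat.log 2 z := Nat.le_log_of_pow_le (by norm_num) h3
      simpa using Nat.lt_succ_of_le this

lemma PW_card {z : ℕ} (hz : 2 ≤ z) : ((PW z).card : ℝ) ≤ 120 * z / Real.log z := by
  classical
  have hz0 : (2 : ℝ) ≤ z := by exact_mod_cast hz
  set L := Real.log z with hL
  have hL2 : Real.log 2 ≤ L := Real.log_le_log (by norm_num) hz0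
  have hl2 : (0.69 : ℝ) < Real.log 2 := by linarith [Real.log_two_gt_d9]
  have hL0 : 0 < L := by linarith
  have h1 : (PW z).card ≤ Nat.primeCounting z + (Nat.sqrt z + 1) * (Nat.log 2 z + 1) := by
    refine (Finset.card_le_card (PW_sub z)).trans ((Finset.card_union_le _ _).trans ?_)
    refine Nat.add_le_add ?_ ?_
    · rw [Nat.primeCounting, Nat.primeCounting', Nat.count_eq_card_filter_range]
    · refine Finset.card_image_le.trans ?_
      rw [Finset.card_product, Finset.card_range, Finset.card_range]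
  have h2 : ((PW z).card : ℝ) ≤ (Nat.primeCounting z : ℝ) + ((Nat.sqrt z : ℝ) + 1) * ((Nat.log 2 z : ℝ) + 1) := by
    exact_mod_cast h1
  have h3 := Chebyshev.pi_le_log4_mul_div (x := (z : ℝ)) (by linarith)
  rw [Nat.floor_natCast] at h3
  have h4 : Real.log √(z : ℝ) = L / 2 := by
    rw [Real.log_sqrt (by linarith)]
  rw [h4] at h3
  have h5 : (Nat.sqrt z : ℝ) ≤ √(z : ℝ) := Real.nat_sqrt_le_real_sqrt
  have h6 : (Nat.log 2 z : ℝ) * Real.log 2 ≤ L := by
    have h7 : 2 ^ Nat.log 2 z ≤ z := Nat.pow_log_le_self 2 (by omega)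
    have h8 : (2 : ℝ) ^ Nat.log 2 z ≤ z := by exact_mod_cast h7
    have := Real.log_le_log (by positivity) h8
    rwa [Real.log_pow] at this
  set q := √(z : ℝ) with hq
  have hq1 : 1 ≤ q := by
    rw [hq, Real.one_le_sqrt]
    linarith
  have hqq : q * q = z := Real.mul_self_sqrt (by linarith)
  have h7 : (Nat.log 2 z : ℝ) + 1 ≤ 2.9 * L := by
    have e1 : (Nat.log 2 z : ℝ) ≤ L / 0.69 := by
      rw [le_div_iff₀ (by norm_num)]
      have : (0 : ℝ) ≤ Nat.log 2 z := Nat.cast_nonneg _
      nlinarith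
    have e2 : (1 : ℝ) ≤ L / 0.69 := by
      rw [le_div_iff₀ (by norm_num)]
      linarith
    have e3 : L / 0.69 + L / 0.69 ≤ 2.9 * L := by
      have : L / 0.69 + L / 0.69 = L * (200 / 69) := by ring
      rw [this]
      nlinarith
    linarith
  have h8 : ((Nat.sqrt z : ℝ) + 1) * ((Nat.log 2 z : ℝ) + 1) ≤ 5.8 * (q * L) := by
    have e0 : (0 : ℝ) ≤ (Nat.log 2 z : ℝ) + 1 := by positivity
    calc ((Nat.sqrt z : ℝ) + 1) * ((Nat.log 2 z : ℝ) + 1) ≤ (2 * q) * (2.9 * L) :=
          mul_le_mul (by linarith) h7 e0 (by linarith)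
      _ = _ := by ring
  have h9 : q ≤ 1.45 * (q * L) := by
    have : 1 ≤ 1.45 * L := by nlinarith
    nlinarith
  have h10 : L * L ≤ 16 * q := by
    have e1 := Real.log_le_rpow_div (x := (z : ℝ)) (ε := 1 / 4) (by linarith) (by norm_num)
    have e2 : ((z : ℝ) ^ (1 / 4 : ℝ)) * ((z : ℝ) ^ (1 / 4 : ℝ)) = q := by
      rw [← Real.rpow_add (by linarith), hq, Real.sqrt_eq_rpow]
      norm_num
    have e3 : L ≤ 4 * (z : ℝ) ^ (1 / 4 : ℝ) := by
      rw [hL]
      linarith
    calc L * L ≤ (4 * (z : ℝ) ^ (1 / 4 : ℝ)) * (4 * (z : ℝ) ^ (1 / 4 : ℝ)) :=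
          mul_le_mul e3 e3 hL0.le (by positivity)
      _ = 16 * (((z : ℝ) ^ (1 / 4 : ℝ)) * ((z : ℝ) ^ (1 / 4 : ℝ))) := by ring
      _ = _ := by rw [e2]
  have h11 : q * L ≤ 16 * z / L := by
    rw [le_div_iff₀ hL0, ← hqq]
    nlinarith
  have h12 : Real.log 4 * z / (L / 2) ≤ 2.78 * z / L := by
    have e1 : Real.log 4 ≤ 1.39 := by
      have : Real.log 4 = 2 * Real.log 2 := by
        rw [show (4 : ℝ) = 2 ^ 2 by norm_num, Real.log_pow]
        norm_num
      rw [this]
      linarith [Real.log_two_lt_d9]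
    have e2 : Real.log 4 * z / (L / 2) = (2 * Real.log 4) * z / L := by field_simp
    rw [e2]
    apply div_le_div_of_nonneg_right _ hL0.le
    nlinarith
  calc ((PW z).card : ℝ) ≤ (2.78 * z / L + q) + 5.8 * (q * L) := by linarith
    _ ≤ 2.78 * z / L + 7.25 * (16 * z / L) := by linarith
    _ = 118.78 * z / L := by ring
    _ ≤ 120 * z / L := by
      apply div_le_div_of_nonneg_right _ hL0.le
      nlinarith

open Classical in
/-- The odd parts up to `y`. -/
noncomputable def OO (y : ℕ) : Finset ℕ := (Finset.Icc 1 y).filter S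

lemma OO_card : ∃ c : ℝ, 0 < c ∧ ∀ x y : ℕ, 16 ≤ x → 1 ≤ y → y ≤ x →
    ((OO y).card : ℝ) ≤ 2 + (Real.log (Real.log x) / c + 2) * (PW (2 * y)).card := by
  classical
  obtain ⟨c, hc, hmain⟩ := chain_size
  refine ⟨c, hc, fun x y hx hy hyx => ?_⟩
  have hx0 : (16 : ℝ) ≤ x := by exact_mod_cast hx
  set R := ⌊Real.log (Real.log x) / c⌋₊ + 1 with hR
  have hlog16 : (2.7182818286 : ℝ) ≤ Real.log x := by
    have h1 : Real.log 16 ≤ Real.log x := Real.log_le_log (by norm_num) hx0
    have h2 : Real.log 16 = 4 * Real.log 2 := by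
      rw [show (16 : ℝ) = 2 ^ 4 by norm_num, Real.log_pow]
      norm_num
    linarith [Real.log_two_gt_d9]
  have hlog0 : 0 < Real.log x := by linarith
  have hll : 0 ≤ Real.log (Real.log x) := Real.log_nonneg (by linarith)
  have hsub : OO y ⊆ ({1, 3} : Finset ℕ) ∪ ((range (R + 1)) ×ˢ PW (2 * y)).image
      (fun u => h^[u.1] ((3 * u.2 - u.2 / u.2.minFac) / 4)) := by
    intro b hb
    rw [OO, Finset.mem_filter, Finset.mem_Icc] at hb
    obtain ⟨⟨hb1, hby⟩, hS⟩ := hb
    rw [Finset.mem_union]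
    rcases hS with h1 | h1 | ⟨p, e, q, s, i, H, hi, hbi⟩
    · left; simp [h1]
    · left; simp [h1]
    · right
      have hc0b : p ^ (e - 1) * q ≤ b := by
        rw [hbi]
        exact h_iter_ge i _
      have hend := H.end_le
      have hsR : s ≤ R := by
        rcases Nat.lt_or_ge s 2 with h2 | h2
        · omega
        · have h3 := (hmain H h2).2
          have h4 : ((p ^ (e - 1) * q : ℕ) : ℝ) ≤ x := by exact_mod_cast hc0b.trans (hby.trans hyx)
          have h5 : Real.exp (Real.exp (c * s)) ≤ x := h3.trans h4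
          have h6 : Real.exp (c * s) ≤ Real.log x := (Real.le_log_iff_exp_le (by linarith)).mpr h5
          have h7 : c * s ≤ Real.log (Real.log x) := (Real.le_log_iff_exp_le hlog0).mpr h6
          have h8 : (s : ℝ) ≤ Real.log (Real.log x) / c := by
            rw [le_div_iff₀ hc]
            linarith
          have h9 : s ≤ ⌊Real.log (Real.log x) / c⌋₊ := Nat.le_floor h8
          omega
      obtain ⟨hp, hp8, he, hq, -⟩ := H
      rw [Finset.mem_image]
      refine ⟨(i, p ^ e), ?_, ?_⟩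
      · rw [Finset.mem_product, Finset.mem_range]
        refine ⟨by simp only; omega, ?_⟩
        rw [PW, Finset.mem_filter, Finset.mem_range]
        refine ⟨by simp only; omega, ?_⟩
        exact hp.isPrimePow.pow (by omega)
      · rw [hbi]
        simp only
        congr 1
        rw [hp.pow_minFac (by omega)]
        obtain ⟨f, rfl⟩ : ∃ f, e = f + 1 := ⟨e - 1, by omega⟩
        rw [Nat.add_sub_cancel]
        have h5 : p ^ (f + 1) / p = p ^ f := by
          rw [pow_succ]
          exact Nat.mul_div_cancel _ hp.pos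
        rw [h5]
        have h6 : 3 * p ^ (f + 1) - p ^ f = 4 * (p ^ f * q) := by
          have h7 : 3 * p ^ (f + 1) = 4 * (p ^ f * q) + p ^ f := by
            calc 3 * p ^ (f + 1) = p ^ f * (3 * p) := by ring
              _ = p ^ f * (4 * q + 1) := by rw [hq]
              _ = _ := by ring
          omega
        rw [h6]
        exact Nat.mul_div_cancel_left _ (by norm_num)
  have hcard := (Finset.card_le_card hsub).trans (Finset.card_union_le _ _)
  have h2 : ({1, 3} : Finset ℕ).card ≤ 2 := Finset.card_le_two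
  have h3 : (((range (R + 1)) ×ˢ PW (2 * y)).image
      (fun u => h^[u.1] ((3 * u.2 - u.2 / u.2.minFac) / 4))).card ≤ (R + 1) * (PW (2 * y)).card := by
    refine Finset.card_image_le.trans ?_
    rw [Finset.card_product, Finset.card_range]
  have h4 : (OO y).card ≤ 2 + (R + 1) * (PW (2 * y)).card := by omega
  have h5 : ((OO y).card : ℝ) ≤ 2 + ((R : ℝ) + 1) * (PW (2 * y)).card := by exact_mod_cast h4
  have h6 : (R : ℝ) + 1 ≤ Real.log (Real.log x) / c + 2 := by
    have : (⌊Real.log (Real.log x) / c⌋₊ : ℝ) ≤ Real.log (Real.log x) / c := Nat.floor_le (by positivity)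
    rw [hR]
    push_cast
    linarith
  have h7 : (0 : ℝ) ≤ (PW (2 * y)).card := Nat.cast_nonneg _
  nlinarith

end Pool.Agent.Helper15.CY
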