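import Pool.Agent.Helper15.CY.Grow
import Pool.Agent.Helper51.Phi.Orbit

set_option autoImplicit false
open Nat Filter N9cdb51e1

namespace Pool.Agent.Helper15.CY

open Finset Pool.Agent.Helper51.Phi

lemma x_eq_X {c : ℕ} (hc : c ≠ 0) : x c = X c.primeFactors := x_eq_prod hc

/-- Iterates of `h` and the values `V`. -/
lemma h_iter_V {c : ℕ} (hc : 3 ≤ c) (s : ℕ) :
    ((h^[s] c : ℕ) : ℚ) = c * V s (fun i => (h^[i] c).primeFactors) := by
  induction s with
  | zero => simp [V]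
  | succ s ih =>
    have h3 : 3 ≤ h^[s] c := hc.trans (h_iter_ge s c)
    rw [Function.iterate_succ_apply', h_cast h3, ih, x_eq_X (by omega)]
    unfold V
    rw [Finset.prod_range_succ]
    ring

lemma U_le (s : ℕ) (T : ℕ → Finset ℕ) : U s T ≤ 3 ^ s * D s T := by
  unfold U D
  have : 3 ^ s = ∏ i ∈ range s, 3 := by simp
  rw [this, ← Finset.prod_mul_distrib]
  refine Finset.prod_le_prod' fun i _ => ?_
  have : ∏ x ∈ T i, (x - 1) ≤ ∏ x ∈ T i, x := Finset.prod_le_prod' fun x _ => Nat.sub_le _ _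
  omega

lemma U_pos {s : ℕ} {T : ℕ → Finset ℕ} (hT : ∀ i < s, ∀ y ∈ T i, 2 ≤ y) : 0 < U s T := by
  unfold U
  refine Finset.prod_pos fun i hi => ?_
  have : 0 < ∏ x ∈ T i, x := Finset.prod_pos fun x hx => by
    have := hT i (Finset.mem_range.mp hi) x hx
    omega
  omega

lemma D_mono {i s : ℕ} (his : i ≤ s) {T : ℕ → Finset ℕ} (hT : ∀ i < s, ∀ y ∈ T i, 2 ≤ y) : D i T ≤ D s T := by
  apply Nat.le_of_dvd (D_pos hT)
  exact Finset.prod_dvd_prod_of_subset _ _ _ (Finset.range_mono his)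

section chain

variable {p e q s : ℕ}

lemma chain_V (hp : p.Prime) (hp7 : 7 ≤ p) (he : 1 ≤ e) (hq : 4 * q + 1 = 3 * p)
    (hend : h^[s] (p ^ (e - 1) * q) = p ^ e) :
    V s (fun i => (h^[i] (p ^ (e - 1) * q)).primeFactors) * (3 * p - 1) = 4 * p := by
  have hpe1 : 1 ≤ p ^ (e - 1) := Nat.one_le_pow _ _ hp.pos
  have hc : 3 ≤ p ^ (e - 1) * q := by nlinarith
  have h1 := h_iter_V hc s
  rw [hend] at h1
  have h2 : (p : ℚ) ^ e = (p : ℚ) ^ (e - 1) * p := by
    rw [← pow_succ]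
    congr 1
    omega
  push_cast at h1
  rw [h2] at h1
  have h3 : ((p : ℚ) ^ (e - 1)) ≠ 0 := by
    have : (p : ℚ) ≠ 0 := by exact_mod_cast hp.ne_zero
    positivity
  set W := V s (fun i => (h^[i] (p ^ (e - 1) * q)).primeFactors) with hW
  have h4 : (p : ℚ) = q * W := by
    apply mul_left_cancel₀ h3
    rw [h1]; ring
  have h5 : (4 : ℚ) * q + 1 = 3 * p := by exact_mod_cast hq
  have h6 : (3 : ℚ) * p - 1 = 4 * q := by linarith
  rw [h6]
  calc W * (4 * q) = 4 * (q * W) := by ring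
    _ = 4 * p := by rw [← h4]

lemma entries (hodd : ∀ i < s, Odd (h^[i] (p ^ (e - 1) * q))) :
    ∀ i < s, ∀ y ∈ (h^[i] (p ^ (e - 1) * q)).primeFactors, 3 ≤ y := by
  intro i hi y hy
  have h1 := odd_primeFactors (hodd i hi) y hy
  have := h1.1.two_le
  omega

/-- Each term of the chain, up to powers of `p`, is bounded. -/
lemma chain_w (hp : p.Prime) (hp7 : 7 ≤ p) (_he : 1 ≤ e) (hq : 4 * q + 1 = 3 * p)
    (hodd : ∀ i < s, Odd (h^[i] (p ^ (e - 1) * q))) {i : ℕ} (hi : i ≤ s) :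
    ∃ a w, w ≤ 3 ^ s * (p * D s (fun i => (h^[i] (p ^ (e - 1) * q)).primeFactors)) ∧
      h^[i] (p ^ (e - 1) * q) = p ^ a * w := by
  set T : ℕ → Finset ℕ := fun i => (h^[i] (p ^ (e - 1) * q)).primeFactors with hT
  have hpe1 : 1 ≤ p ^ (e - 1) := Nat.one_le_pow _ _ hp.pos
  have hc : 3 ≤ p ^ (e - 1) * q := by nlinarith
  have hT3 : ∀ i < s, ∀ y ∈ T i, 2 ≤ y := fun i hi y hy => by
    have := entries hodd i hi y hy
    omega
  have hT3' : ∀ j < i, ∀ y ∈ T j, 2 ≤ y := fun j hj => hT3 j (by omega)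
  have h1 := h_iter_V hc i
  have h2 := V_eq hT3'
  have hne : h^[i] (p ^ (e - 1) * q) ≠ 0 := by
    have := h_iter_ge i (p ^ (e - 1) * q)
    omega
  obtain ⟨a, w, hw, haw⟩ := Nat.exists_eq_pow_mul_and_not_dvd hne p hp.ne_one
  refine ⟨a, w, ?_, haw⟩
  have h3 : p ^ a * w * (2 ^ i * D i T) = p ^ (e - 1) * (q * U i T) := by
    have h4 : ((p ^ a * w * (2 ^ i * D i T) : ℕ) : ℚ) = ((p ^ (e - 1) * (q * U i T) : ℕ) : ℚ) := by
      rw [← haw]
      push_cast
      rw [h1, ← h2]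
      push_cast
      ring
    exact_mod_cast h4
  have h5 : w ∣ p ^ (e - 1) * (q * U i T) := ⟨p ^ a * (2 ^ i * D i T), by rw [← h3]; ring⟩
  have h6 : w.Coprime (p ^ (e - 1)) := ((Nat.Prime.coprime_iff_not_dvd hp).mpr hw).symm.pow_right _
  have h7 : w ∣ q * U i T := h6.dvd_of_dvd_mul_left h5
  have hq1 : 0 < q := by omega
  have h8 : w ≤ q * U i T := Nat.le_of_dvd (Nat.mul_pos hq1 (U_pos hT3')) h7
  refine h8.trans ?_
  calc q * U i T ≤ p * (3 ^ i * D i T) := Nat.mul_le_mul (by omega) (U_le i T)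
    _ ≤ p * (3 ^ s * D s T) := Nat.mul_le_mul_left _ (Nat.mul_le_mul (Nat.pow_le_pow_right (by norm_num) hi) (D_mono hi hT3))
    _ = _ := by ring

end chain

/-- The step at the prime power. -/
lemma g_jump {l p e q : ℕ} (hl : 1 ≤ l) (hp : p.Prime) (hp8 : p % 8 = 7) (he : 1 ≤ e) (hq : 4 * q + 1 = 3 * p) :
    g (2 ^ l * p ^ e) = 2 ^ (l + 1) * (p ^ (e - 1) * q) := by
  have hpo : Odd p := by rw [Nat.odd_iff]; omega
  have hpe : p ≤ p ^ e := Nat.le_self_pow (by omega) p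
  rw [g_step hl (Odd.pow hpo) (by omega)]
  obtain ⟨f, rfl⟩ : ∃ k, e = k + 1 := ⟨e - 1, by omega⟩
  obtain ⟨t, ht⟩ : ∃ t, p = 4 * t + 3 := ⟨p / 4, by omega⟩
  have h3 : φ (p ^ (f + 1)) = p ^ f * (p - 1) := Nat.totient_prime_pow_succ hp f
  have h4 : φ (p ^ (f + 1)) / 2 = p ^ f * (2 * t + 1) := by
    rw [h3, show p - 1 = 2 * (2 * t + 1) by omega,
      show p ^ f * (2 * (2 * t + 1)) = 2 * (p ^ f * (2 * t + 1)) by ring]
    exact Nat.mul_div_cancel_left _ (by norm_num)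
  unfold h
  rw [h4, Nat.add_sub_cancel]
  have h5 : p + (2 * t + 1) = 2 * q := by omega
  calc 2 ^ l * (p ^ (f + 1) + p ^ f * (2 * t + 1)) = 2 ^ l * (p ^ f * (p + (2 * t + 1))) := by ring
    _ = _ := by rw [h5]; ring

/-- The bound. -/
def bnd (r k : ℕ) : ℕ := 3 ^ r * (3 ^ r * ((r - 1) * k + 1)) ^ 2 ^ ((r - 1) * k + 1)

lemma bnd_ge (r k : ℕ) : 3 ^ r ≤ bnd r k := by
  unfold bnd
  exact Nat.le_mul_of_pos_right _ (by positivity)

/-- The chain case. -/
theorem chain_case {n r k j l p e q : ℕ} (hr : 2 ≤ r) (hl : 1 ≤ l) (hp : p.Prime) (hp8 : p % 8 = 7) (he : 1 ≤ e)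
    (hq : 4 * q + 1 = 3 * p) (hj : g^[j] n = 2 ^ l * p ^ e) (hend : h^[r - 1] (p ^ (e - 1) * q) = p ^ e)
    (hodd : ∀ i < r, Odd (h^[i] (p ^ (e - 1) * q)))
    (hk : ∀ᶠ j in atTop, (g^[j] n).primeFactors.card ≤ k + 1) :
    2 ^ k * (r - 1) ≤ 3 ^ k ∧ ∃ p, p.Prime ∧ p ≤ bnd r k ∧ ∀ᶠ j in atTop, ∃ l a w, w ≤ bnd r k ∧ g^[j] n = 2 ^ l * p ^ a * w := by
  obtain ⟨s, rfl⟩ : ∃ s, r = s + 1 := ⟨r - 1, by omega⟩
  rw [Nat.add_sub_cancel] at hend ⊢
  have hp7 : 7 ≤ p := by omega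
  have hpe1 : 1 ≤ p ^ (e - 1) := Nat.one_le_pow _ _ hp.pos
  have hc3 : 3 ≤ p ^ (e - 1) * q := by nlinarith
  set c0 := p ^ (e - 1) * q with hc0
  -- returns
  have hret : ∀ m, g^[j + m * (s + 1)] n = 2 ^ (l + m) * p ^ e := by
    intro m
    induction m with
    | zero => simpa using hj
    | succ m ih =>
      rw [show j + (m + 1) * (s + 1) = s + ((j + m * (s + 1)) + 1) by ring, Function.iterate_add_apply,
        Function.iterate_succ_apply', ih, g_jump (by omega) hp hp8 he hq, ← hc0,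
        g_iter_h (by omega) hc3 s (fun i hi => hodd i (by omega)), hend]
      ring
  have hret' : ∀ m i, i ≤ s → g^[i + ((j + m * (s + 1)) + 1)] n = 2 ^ (l + m + 1) * h^[i] c0 := by
    intro m i hi
    rw [Function.iterate_add_apply, Function.iterate_succ_apply', hret, g_jump (by omega) hp hp8 he hq, ← hc0,
      g_iter_h (by omega) hc3 i (fun i' hi' => hodd i' (by omega))]
  -- cards
  have hcard : ∀ i < s, (h^[i] c0).primeFactors.card ≤ k := by
    intro i hi
    obtain ⟨J, hJ⟩ := eventually_atTop.mp hk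
    have h1 := hJ (i + ((j + J * (s + 1)) + 1)) (by nlinarith)
    rw [hret' J i (by omega)] at h1
    have hco : (2 ^ (l + J + 1)).Coprime (h^[i] c0) := Nat.Coprime.pow_left _ (Nat.coprime_two_left.mpr (hodd i (by omega)))
    rw [Nat.Coprime.primeFactors_mul hco, Finset.card_union_of_disjoint hco.disjoint_primeFactors,
      Nat.primeFactors_prime_pow (by omega) Nat.prime_two, Finset.card_singleton] at h1
    omega
  set T : ℕ → Finset ℕ := fun i => (h^[i] c0).primeFactors with hT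
  have hV : V s T * (3 * p - 1) = 4 * p := chain_V hp hp7 he hq hend
  have hT3 : ∀ i < s, ∀ y ∈ T i, 3 ≤ y := entries (fun i hi => hodd i (by omega))
  have hN : N s T ≤ s * k := by
    unfold N
    calc ∑ i ∈ range s, (T i).card ≤ ∑ i ∈ range s, k := Finset.sum_le_sum fun i hi => hcard i (Finset.mem_range.mp hi)
      _ = s * k := by simp
  have htot := total (by omega) (fun i hi y hy => by have := hT3 i hi y hy; omega) hN hV
  refine ⟨length_le hp7 hT3 hcard hV, p, hp, ?_, ?_⟩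
  · calc p ≤ p * D s T := Nat.le_mul_of_pos_right _ (D_pos fun i hi y hy => by have := hT3 i hi y hy; omega)
      _ ≤ _ := htot
      _ ≤ 3 ^ (s + 1) * (3 ^ (s + 1) * (s * k + 1)) ^ (2 ^ (s * k + 1)) := Nat.le_mul_of_pos_left _ (by positivity)
      _ = _ := by unfold bnd; rw [Nat.add_sub_cancel]
  · rw [eventually_atTop]
    have hall : ∀ t, ∃ l' i, 1 ≤ l' ∧ i ≤ s ∧ g^[j + t] n = 2 ^ l' * h^[i] c0 := by
      intro t
      induction t with
      | zero => exact ⟨l, s, hl, le_rfl, by rw [hend]; exact hj⟩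
      | succ t ih =>
        obtain ⟨l', i, hl', hi, hti⟩ := ih
        rcases Nat.eq_or_lt_of_le hi with his | his
        · refine ⟨l' + 1, 0, by omega, Nat.zero_le _, ?_⟩
          rw [show j + (t + 1) = (j + t) + 1 by ring, Function.iterate_succ_apply', hti, his, hend,
            g_jump hl' hp hp8 he hq]
          rfl
        · refine ⟨l', i + 1, hl', his, ?_⟩
          rw [show j + (t + 1) = (j + t) + 1 by ring, Function.iterate_succ_apply', hti,
            g_step hl' (hodd i (by omega)) (hc3.trans (h_iter_ge i c0)), Function.iterate_succ_apply']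
    refine ⟨j, fun b hb => ?_⟩
    obtain ⟨t, rfl⟩ : ∃ t, b = j + t := ⟨b - j, by omega⟩
    obtain ⟨l', i, hl', hi, hti⟩ := hall t
    obtain ⟨a, w, hw, haw⟩ := chain_w (s := s) hp hp7 he hq (fun i hi => hodd i (by omega)) hi
    rw [← hc0] at haw
    refine ⟨l', a, w, ?_, by rw [hti, haw]; ring⟩
    calc w ≤ 3 ^ s * (p * D s T) := hw
      _ ≤ 3 ^ (s + 1) * (3 ^ (s + 1) * (s * k + 1)) ^ (2 ^ (s * k + 1)) :=
          Nat.mul_le_mul (Nat.pow_le_pow_right (by norm_num) (by omega)) htot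
      _ = _ := by unfold bnd; rw [Nat.add_sub_cancel]

/-- The chain case for `r = 2`: the odd parts are bounded. -/
theorem chain_case_two {n k j l p e q : ℕ} (hl : 1 ≤ l) (hp : p.Prime) (hp8 : p % 8 = 7) (he : 1 ≤ e)
    (hq : 4 * q + 1 = 3 * p) (hj : g^[j] n = 2 ^ l * p ^ e) (hend : h^[2 - 1] (p ^ (e - 1) * q) = p ^ e)
    (hodd : ∀ i < 2, Odd (h^[i] (p ^ (e - 1) * q)))
    (hk : ∀ᶠ j in atTop, (g^[j] n).primeFactors.card ≤ k + 1) :
    p ≤ bnd 2 k ∧ ∀ᶠ j in atTop, ∃ l a w, w ≤ bnd 2 k ∧ a ≤ 1 ∧ g^[j] n = 2 ^ l * p ^ a * w := by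
  have hp7 : 7 ≤ p := by omega
  have he1 : e = 1 := (chain_two hp hp7 he hq (by simpa using hend)).1
  subst he1
  have hqo : Odd q := by simpa using hodd 0 (by norm_num)
  have hhq : h q = p := by simpa using hend
  have hpb : p ≤ bnd 2 k := by
    have hret : ∀ m, g^[j + m * 2] n = 2 ^ (l + m) * p := by
      intro m
      induction m with
      | zero => simpa using hj
      | succ m ih =>
        have h1 := g_jump (l := l + m) (e := 1) (by omega) hp hp8 le_rfl hq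
        rw [pow_one, Nat.sub_self, pow_zero, one_mul] at h1
        rw [show j + (m + 1) * 2 = (j + m * 2) + 1 + 1 by ring, Function.iterate_succ_apply', Function.iterate_succ_apply', ih, h1,
          g_step (by omega) hqo (by omega), hhq]
        ring
    have hcard : q.primeFactors.card ≤ k := by
      obtain ⟨J, hJ⟩ := eventually_atTop.mp hk
      have h1 := g_jump (l := l + J) (e := 1) (by omega) hp hp8 le_rfl hq
      rw [pow_one, Nat.sub_self, pow_zero, one_mul] at h1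
      have h2 := hJ ((j + J * 2) + 1) (by omega)
      rw [Function.iterate_succ_apply', hret, h1] at h2
      have hco : (2 ^ (l + J + 1)).Coprime q := Nat.Coprime.pow_left _ (Nat.coprime_two_left.mpr hqo)
      rw [Nat.Coprime.primeFactors_mul hco, Finset.card_union_of_disjoint hco.disjoint_primeFactors,
        Nat.primeFactors_prime_pow (by omega) Nat.prime_two, Finset.card_singleton] at h2
      omega
    set T : ℕ → Finset ℕ := fun i => (h^[i] (p ^ (1 - 1) * q)).primeFactors with hT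
    have hV : V 1 T * (3 * p - 1) = 4 * p := chain_V hp hp7 le_rfl hq (by simpa using hhq)
    have hT3 : ∀ i < 1, ∀ y ∈ T i, 3 ≤ y := entries (fun i hi => hodd i (by omega))
    have hN : N 1 T ≤ 1 * k := by
      unfold N
      rw [Finset.sum_range_one, one_mul, hT]
      simpa using hcard
    have htot := total (by omega) (fun i hi y hy => by have := hT3 i hi y hy; omega) hN hV
    calc p ≤ p * D 1 T := Nat.le_mul_of_pos_right _ (D_pos fun i hi y hy => by have := hT3 i hi y hy; omega)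
      _ ≤ _ := htot
      _ ≤ 3 ^ 2 * (3 ^ (1 + 1) * (1 * k + 1)) ^ (2 ^ (1 * k + 1)) := Nat.le_mul_of_pos_left _ (by positivity)
      _ = _ := by unfold bnd; rfl
  refine ⟨hpb, ?_⟩
  rw [eventually_atTop]
  have hall : ∀ t, ∃ l', 1 ≤ l' ∧ (g^[j + t] n = 2 ^ l' * p ∨ g^[j + t] n = 2 ^ l' * q) := by
    intro t
    induction t with
    | zero => exact ⟨l, hl, Or.inl (by simpa using hj)⟩
    | succ t ih =>
      obtain ⟨l', hl', hti | hti⟩ := ih
      · have h1 := g_jump (l := l') (e := 1) hl' hp hp8 le_rfl hq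
        rw [pow_one, Nat.sub_self, pow_zero, one_mul] at h1
        exact ⟨l' + 1, by omega, Or.inr (by rw [show j + (t + 1) = (j + t) + 1 by ring, Function.iterate_succ_apply', hti, h1])⟩
      · exact ⟨l', hl', Or.inl (by rw [show j + (t + 1) = (j + t) + 1 by ring, Function.iterate_succ_apply', hti,
          g_step hl' hqo (by omega), hhq])⟩
  refine ⟨j, fun b hb => ?_⟩
  obtain ⟨t, rfl⟩ : ∃ t, b = j + t := ⟨b - j, by omega⟩
  obtain ⟨l', hl', hti | hti⟩ := hall t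
  · exact ⟨l', 1, 1, by omega, le_rfl, by rw [hti]; ring⟩
  · exact ⟨l', 0, q, by omega, Nat.zero_le _, by rw [hti]; ring⟩

/-- The special case of the tails `2^a`, `2^a 3`. -/
theorem two_case {n k j l : ℕ} (hl : 1 ≤ l) (hj : g^[j] n = 2 ^ l * 2) :
    ∀ᶠ j in atTop, ∃ l a w, w ≤ bnd 2 k ∧ a ≤ 1 ∧ g^[j] n = 2 ^ l * 2 ^ a * w := by
  rw [eventually_atTop]
  have hall : ∀ t, (∃ l', 2 ≤ l' ∧ g^[j + t] n = 2 ^ l') ∨ (∃ l', 1 ≤ l' ∧ g^[j + t] n = 2 ^ l' * 3) := by
    intro t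
    induction t with
    | zero => exact Or.inl ⟨l + 1, by omega, by rw [pow_succ]; exact hj⟩
    | succ t ih =>
      rcases ih with ⟨l', hl', hti⟩ | ⟨l', hl', hti⟩
      · right
        refine ⟨l' - 1, by omega, ?_⟩
        rw [show j + (t + 1) = (j + t) + 1 by ring, Function.iterate_succ_apply', hti, g_pow_two (by omega)]
      · left
        refine ⟨l' + 2, by omega, ?_⟩
        rw [show j + (t + 1) = (j + t) + 1 by ring, Function.iterate_succ_apply', hti,
          g_step hl' (by decide) (by norm_num), show h 3 = 4 by decide, pow_add]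
        rfl
  have h9 : 3 ^ 2 ≤ bnd 2 k := bnd_ge 2 k
  refine ⟨j, fun b hb => ?_⟩
  obtain ⟨t, rfl⟩ : ∃ t, b = j + t := ⟨b - j, by omega⟩
  rcases hall t with ⟨l', hl', hti⟩ | ⟨l', hl', hti⟩
  · exact ⟨l', 0, 1, by omega, Nat.zero_le _, by rw [hti]; ring⟩
  · exact ⟨l', 0, 3, by omega, Nat.zero_le _, by rw [hti]; ring⟩

end Pool.Agent.Helper15.CY
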