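import Pool.Agent.Helper15.CY.Run6
import Pool.Agent.Helper15.CY.Tail

set_option autoImplicit false
open Nat Filter N9cdb51e1

namespace Pool.Agent.Helper15.CY

open Finset Pool.Agent.Helper51.Phi

/-- Odd numbers at least `2m+1`: the product is at least that of the first `k`. -/
lemma X_odd (m : ℕ) (hm : 1 ≤ m) (k : ℕ) : ∀ T : Finset ℕ, (∀ y ∈ T, y % 2 = 1 ∧ 2 * m + 1 ≤ y) → T.card ≤ k →
    ∏ i ∈ range k, (1 - (((2 * (m + i) + 1 : ℕ) : ℚ))⁻¹) ≤ X T := by
  induction k with
  | zero =>
    intro T _ hc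
    have : T = ∅ := Finset.card_eq_zero.mp (by omega)
    subst this
    simp [X]
  | succ k ih =>
    intro T hT hc
    have hf0 : 0 ≤ ∏ i ∈ range k, (1 - (((2 * (m + i) + 1 : ℕ) : ℚ))⁻¹) :=
      Finset.prod_nonneg fun i _ => (fac_pos (by omega)).le
    rw [Finset.prod_range_succ]
    rcases Nat.lt_or_ge T.card (k + 1) with h | h
    · have h1 := ih T hT (by omega)
      have h2 : (1 - (((2 * (m + k) + 1 : ℕ) : ℚ))⁻¹) ≤ 1 := fac_le
      calc _ ≤ (∏ i ∈ range k, (1 - (((2 * (m + i) + 1 : ℕ) : ℚ))⁻¹)) * 1 := mul_le_mul_of_nonneg_left h2 hf0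
        _ ≤ _ := by rw [mul_one]; exact h1
    · have hne : T.Nonempty := by rw [← Finset.card_pos]; omega
      set z := T.max' hne with hz
      have hzm : z ∈ T := T.max'_mem hne
      have hmax : ∀ y ∈ T, y ≤ z := fun y hy => T.le_max' y hy
      have hsub : T ⊆ (range ((z - (2 * m + 1)) / 2 + 1)).image (fun i => 2 * (m + i) + 1) := by
        intro y hy
        have h1 := hT y hy
        have h2 := hmax y hy
        have h3 := hT z hzm
        rw [Finset.mem_image]
        refine ⟨(y - (2 * m + 1)) / 2, ?_, ?_⟩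
        · rw [Finset.mem_range]; omega
        · omega
      have hcard := (Finset.card_le_card hsub).trans Finset.card_image_le
      rw [Finset.card_range] at hcard
      have hzge : 2 * (m + k) + 1 ≤ z := by
        have := hT z hzm
        omega
      have h1 := ih (T.erase z) (fun y hy => hT y (Finset.mem_of_mem_erase hy)) (by rw [Finset.card_erase_of_mem hzm]; omega)
      have h2 : (1 - (((2 * (m + k) + 1 : ℕ) : ℚ))⁻¹) ≤ 1 - (z : ℚ)⁻¹ := by
        have : (z : ℚ)⁻¹ ≤ (((2 * (m + k) + 1 : ℕ) : ℚ))⁻¹ :=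
          inv_anti₀ (by exact_mod_cast (by omega : 0 < 2 * (m + k) + 1)) (by exact_mod_cast hzge)
        linarith
      have h3 : X T = X (T.erase z) * (1 - (z : ℚ)⁻¹) := by
        unfold X
        rw [Finset.prod_erase_mul T _ hzm]
      rw [h3]
      apply mul_le_mul h1 h2 (fac_pos (by omega)).le
      exact (X_pos fun y hy => by have := hT y (Finset.mem_of_mem_erase hy); omega).le

/-- No chain of length at least two with at most six prime factors in each term. -/
theorem no_long {p e q s : ℕ} (hp : p.Prime) (hp8 : p % 8 = 7) (he : 1 ≤ e) (hq : 4 * q + 1 = 3 * p) (hs : 2 ≤ s)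
    (hend : h^[s] (p ^ (e - 1) * q) = p ^ e) (hodd : ∀ i < s, Odd (h^[i] (p ^ (e - 1) * q)))
    (hcard : ∀ i < s, (h^[i] (p ^ (e - 1) * q)).primeFactors.card ≤ 6) : False := by
  have hp7 : 7 ≤ p := by omega
  have hV := chain_V hp hp7 he hq hend
  set T : ℕ → Finset ℕ := fun i => (h^[i] (p ^ (e - 1) * q)).primeFactors with hT
  have hT3 : ∀ i < s, ∀ y ∈ T i, 3 ≤ y := entries hodd
  have hTo : ∀ i < s, ∀ y ∈ T i, y % 2 = 1 := by
    intro i hi y hy
    have h1 := odd_primeFactors (hodd i hi) y hy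
    exact (h1.1.eq_two_or_odd).resolve_left h1.2
  have hT5 : ∀ y ∈ T 0, 5 ≤ y := by
    intro y hy
    have h1 := hT3 0 (by omega) y hy
    have h2 := hTo 0 (by omega) y hy
    have h3 : y ∣ p ^ (e - 1) * q := by
      have := Nat.dvd_of_mem_primeFactors hy
      simpa using this
    have h4 : y ≠ 3 := by
      rintro rfl
      rcases (Nat.Prime.dvd_mul Nat.prime_three).mp h3 with h5 | h5
      · have h6 := Nat.Prime.dvd_of_dvd_pow Nat.prime_three h5
        have := (Nat.prime_dvd_prime_iff_eq Nat.prime_three hp).mp h6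
        omega
      · omega
    omega
  have h0 := X_odd 2 (by norm_num) 6 (T 0) (fun y hy => ⟨hTo 0 (by omega) y hy, by have := hT5 y hy; omega⟩) (hcard 0 (by omega))
  have h1 := X_odd 1 le_rfl 6 (T (s - 1)) (fun y hy => ⟨hTo (s - 1) (by omega) y hy, by
    have := hT3 (s - 1) (by omega) y hy; omega⟩) (hcard (s - 1) (by omega))
  simp only [Finset.prod_range_succ, Finset.prod_range_zero] at h0 h1
  norm_num at h0 h1
  have hVge : (1 + X (T 0) / 2) * (1 + X (T (s - 1)) / 2) ≤ V s T := by
    unfold V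
    have hsub : ({0, s - 1} : Finset ℕ) ⊆ range s := by
      intro i hi
      rw [Finset.mem_range]
      rcases Finset.mem_insert.mp hi with h | h
      · omega
      · rw [Finset.mem_singleton.mp h]; omega
    have hpair : ∏ i ∈ ({0, s - 1} : Finset ℕ), (1 + X (T i) / 2) = (1 + X (T 0) / 2) * (1 + X (T (s - 1)) / 2) :=
      Finset.prod_pair (by omega)
    rw [← hpair]
    refine Finset.prod_le_prod_of_subset_of_one_le hsub (fun i hi => ?_) (fun i hi _ => ?_)
    · have := X_pos (T := T i) fun y hy => by have := hT3 i (Finset.mem_range.mp (hsub hi)) y hy; omega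
      linarith
    · have := X_pos (T := T i) fun y hy => by have := hT3 i (Finset.mem_range.mp hi) y hy; omega
      linarith
  have hp0 : (7 : ℚ) ≤ p := by exact_mod_cast hp7
  have hVle : V s T ≤ 7 / 5 := by
    have : V s T * (3 * p - 1) ≤ 7 / 5 * (3 * p - 1) := by rw [hV]; linarith
    exact le_of_mul_le_mul_right this (by linarith)
  have h2 : (1 + (1024 / 2145 : ℚ) / 2) * (1 + (1024 / 3003) / 2) ≤ (1 + X (T 0) / 2) * (1 + X (T (s - 1)) / 2) :=
    mul_le_mul (by linarith) (by linarith) (by norm_num) (by linarith)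
  have h3 : (7 / 5 : ℚ) < (1 + (1024 / 2145 : ℚ) / 2) * (1 + (1024 / 3003) / 2) := by norm_num
  linarith

/-- The number of prime factors of the terms of the chain. -/
theorem chain_cards {n k j l p e q s : ℕ} (hl : 1 ≤ l) (hp : p.Prime) (hp8 : p % 8 = 7) (he : 1 ≤ e)
    (hq : 4 * q + 1 = 3 * p) (hj : g^[j] n = 2 ^ l * p ^ e) (hend : h^[s] (p ^ (e - 1) * q) = p ^ e)
    (hodd : ∀ i < s + 1, Odd (h^[i] (p ^ (e - 1) * q)))
    (hk : ∀ᶠ j in atTop, (g^[j] n).primeFactors.card ≤ k + 1) :
    ∀ i < s, (h^[i] (p ^ (e - 1) * q)).primeFactors.card ≤ k := by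
  have hpe1 : 1 ≤ p ^ (e - 1) := Nat.one_le_pow _ _ hp.pos
  have hq5 : 5 ≤ q := by omega
  have hc3 : 3 ≤ p ^ (e - 1) * q := by nlinarith
  set c0 := p ^ (e - 1) * q with hc0
  have hret : ∀ m, g^[j + m * (s + 1)] n = 2 ^ (l + m) * p ^ e := by
    intro m
    induction m with
    | zero => simpa using hj
    | succ m ih =>
      rw [show j + (m + 1) * (s + 1) = s + ((j + m * (s + 1)) + 1) by ring, Function.iterate_add_apply,
        Function.iterate_succ_apply', ih, g_jump (by omega) hp hp8 he hq, ← hc0,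
        g_iter_h (by omega) hc3 s (fun i hi => hodd i (by omega)), hend]
      ring
  intro i hi
  obtain ⟨J, hJ⟩ := eventually_atTop.mp hk
  have h1 := hJ (i + ((j + J * (s + 1)) + 1)) (by nlinarith)
  rw [Function.iterate_add_apply, Function.iterate_succ_apply', hret, g_jump (by omega) hp hp8 he hq, ← hc0,
    g_iter_h (by omega) hc3 i (fun i' hi' => hodd i' (by omega))] at h1
  have hco : (2 ^ (l + J + 1)).Coprime (h^[i] c0) := Nat.Coprime.pow_left _ (Nat.coprime_two_left.mpr (hodd i (by omega)))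
  rw [Nat.Coprime.primeFactors_mul hco, Finset.card_union_of_disjoint hco.disjoint_primeFactors,
    Nat.primeFactors_prime_pow (by omega) Nat.prime_two, Finset.card_singleton] at h1
  omega

end Pool.Agent.Helper15.CY
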