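import Pool.Agent.Helper15.CY.Density

set_option autoImplicit false
open Nat Filter N9cdb51e1

namespace Pool.Agent.Helper15.CY

open Finset Pool.Agent.Helper51.Phi

open Classical in
/-- The tail terms up to `x`. -/
noncomputable def TT (x : ℕ) : Finset ℕ := (Finset.Icc 1 x).filter IsTail

lemma TT_sub (x A : ℕ) : TT x ⊆ ((range A).biUnion fun a => (OO (x / 2 ^ a)).image fun c => 2 ^ a * c) ∪
    (Finset.Icc 1 (x / 2 ^ A)).image (fun k => 2 ^ A * k) := by
  classical
  intro m hm
  rw [TT, Finset.mem_filter, Finset.mem_Icc] at hm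
  obtain ⟨⟨hm1, hmx⟩, hT⟩ := hm
  have hS := tail_S (by omega) hT
  set v := m.factorization 2 with hv
  set c := ordCompl[2] m with hc
  have hmc : 2 ^ v * c = m := Nat.ordProj_mul_ordCompl_eq_self m 2
  have hc1 : 1 ≤ c := Nat.ordCompl_pos 2 (by omega)
  rw [Finset.mem_union]
  rcases Nat.lt_or_ge v A with h1 | h1
  · left
    rw [Finset.mem_biUnion]
    refine ⟨v, Finset.mem_range.mpr h1, ?_⟩
    rw [Finset.mem_image]
    refine ⟨c, ?_, hmc⟩
    rw [OO, Finset.mem_filter, Finset.mem_Icc]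
    refine ⟨⟨hc1, ?_⟩, hS⟩
    rw [Nat.le_div_iff_mul_le (by positivity)]
    calc c * 2 ^ v = m := by rw [mul_comm]; exact hmc
      _ ≤ x := hmx
  · right
    rw [Finset.mem_image]
    refine ⟨2 ^ (v - A) * c, ?_, ?_⟩
    · rw [Finset.mem_Icc]
      refine ⟨Nat.one_le_iff_ne_zero.mpr (by positivity), ?_⟩
      rw [Nat.le_div_iff_mul_le (by positivity)]
      calc 2 ^ (v - A) * c * 2 ^ A = 2 ^ (v - A) * 2 ^ A * c := by ring
        _ = 2 ^ v * c := by rw [← pow_add, Nat.sub_add_cancel h1]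
        _ = m := hmc
        _ ≤ x := hmx
    · calc 2 ^ A * (2 ^ (v - A) * c) = 2 ^ (v - A) * 2 ^ A * c := by ring
        _ = 2 ^ v * c := by rw [← pow_add, Nat.sub_add_cancel h1]
        _ = m := hmc

lemma TT_card (x A : ℕ) : ((TT x).card : ℝ) ≤ ∑ a ∈ range A, ((OO (x / 2 ^ a)).card : ℝ) + (x : ℝ) / 2 ^ A := by
  classical
  have h1 := (Finset.card_le_card (TT_sub x A)).trans (Finset.card_union_le _ _)
  have h2 : ((range A).biUnion fun a => (OO (x / 2 ^ a)).image fun c => 2 ^ a * c).card ≤ ∑ a ∈ range A, (OO (x / 2 ^ a)).card := by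
    refine Finset.card_biUnion_le.trans (Finset.sum_le_sum fun a _ => Finset.card_image_le)
  have h3 : ((Finset.Icc 1 (x / 2 ^ A)).image (fun k => 2 ^ A * k)).card ≤ x / 2 ^ A := by
    refine Finset.card_image_le.trans ?_
    simp
  have h4 : (TT x).card ≤ ∑ a ∈ range A, (OO (x / 2 ^ a)).card + x / 2 ^ A := by omega
  have h5 : ((TT x).card : ℝ) ≤ ∑ a ∈ range A, ((OO (x / 2 ^ a)).card : ℝ) + ((x / 2 ^ A : ℕ) : ℝ) := by exact_mod_cast h4
  have h6 : ((x / 2 ^ A : ℕ) : ℝ) ≤ (x : ℝ) / 2 ^ A := by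
    have := Nat.cast_div_le (α := ℝ) (m := x) (n := 2 ^ A)
    push_cast at this
    exact this
  linarith

/-- The number of tail terms up to `x`. -/
theorem tail_count : ∃ C : ℝ, 0 < C ∧ ∀ x : ℕ, 16 ≤ x →
    ((TT x).card : ℝ) ≤ C * x * Real.log (Real.log x) / Real.log x := by
  obtain ⟨c, hc, hO⟩ := OO_card
  refine ⟨970 * (1 / c + 2), by positivity, fun x hx => ?_⟩
  have hx0 : (16 : ℝ) ≤ x := by exact_mod_cast hx
  have hlog16 : (2.7182818286 : ℝ) ≤ Real.log x := by
    have h1 : Real.log 16 ≤ Real.log x := Real.log_le_log (by norm_num) hx0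
    have h2 : Real.log 16 = 4 * Real.log 2 := by
      rw [show (16 : ℝ) = 2 ^ 4 by norm_num, Real.log_pow]
      norm_num
    linarith [Real.log_two_gt_d9]
  set L := Real.log x with hL
  have hL0 : 0 < L := by linarith
  have hll : 1 ≤ Real.log L := by
    rw [Real.le_log_iff_exp_le hL0]
    linarith [Real.exp_one_lt_d9]
  set G := Real.log L with hG
  set R := G / c + 2 with hR
  have hR0 : 2 ≤ R := by
    have : 0 ≤ G / c := by positivity
    linarith
  set A := Nat.log 4 x + 1 with hA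
  set q := √(x : ℝ) with hq
  have hqq : q * q = x := Real.mul_self_sqrt (by linarith)
  have hq4 : 4 ≤ q := by
    rw [hq]
    apply Real.le_sqrt_of_sq_le
    linarith
  have hLq : L ≤ 2 * q := by
    have h1 : L = 2 * Real.log q := by
      rw [hL, hq, Real.log_sqrt (by linarith)]
      ring
    have h2 := Real.log_le_sub_one_of_pos (show 0 < q by linarith)
    linarith
  -- the rows
  have hrow : ∀ a ∈ range A, ((OO (x / 2 ^ a)).card : ℝ) ≤ R * 484 * (x / L) * (1 / 2) ^ a := by
    intro a ha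
    rw [Finset.mem_range] at ha
    have ha1 : 4 ^ a ≤ x := by
      refine le_trans (Nat.pow_le_pow_right (by norm_num) (by omega : a ≤ Nat.log 4 x)) (Nat.pow_log_le_self 4 (by omega))
    have ha2 : (2 : ℝ) ^ a ≤ q := by
      rw [hq]
      apply Real.le_sqrt_of_sq_le
      have : ((2 : ℝ) ^ a) ^ 2 = 4 ^ a := by
        rw [← pow_mul, mul_comm, pow_mul]
        norm_num
      rw [this]
      exact_mod_cast ha1
    have h2a : (0 : ℝ) < 2 ^ a := by positivity
    set y := x / 2 ^ a with hy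
    have hy1 : 1 ≤ y := by
      rw [hy, Nat.one_le_div_iff (by positivity)]
      refine le_trans ?_ ha1
      exact Nat.pow_le_pow_left (by norm_num) a
    have hyle : (y : ℝ) ≤ x / 2 ^ a := by
      have := Nat.cast_div_le (α := ℝ) (m := x) (n := 2 ^ a)
      push_cast at this
      exact this
    have hyge : (x : ℝ) / 2 ^ a ≤ 2 * y := by
      have h1 : x < 2 ^ a * (y + 1) := by
        have := Nat.lt_mul_div_succ x (show 0 < 2 ^ a by positivity)
        simpa [hy] using this
      have h2 : (x : ℝ) ≤ 2 ^ a * (y + 1) := by exact_mod_cast h1.le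
      have hy1' : (1 : ℝ) ≤ y := by exact_mod_cast hy1
      rw [div_le_iff₀ h2a]
      nlinarith
    have hxa : q ≤ (x : ℝ) / 2 ^ a := by
      rw [le_div_iff₀ h2a, ← hqq]
      exact mul_le_mul_of_nonneg_left ha2 (by linarith)
    have h1 := hO x y hx hy1 (Nat.div_le_self _ _)
    have h2 := PW_card (z := 2 * y) (by omega)
    push_cast at h2
    have hlog : L / 2 ≤ Real.log (2 * (y : ℝ)) := by
      have h3 : Real.log q = L / 2 := by rw [hq, Real.log_sqrt (by linarith)]
      rw [← h3]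
      exact Real.log_le_log (by linarith) (hxa.trans hyge)
    have h3 : 120 * (2 * (y : ℝ)) / Real.log (2 * (y : ℝ)) ≤ 480 * (x / L) * (1 / 2) ^ a := by
      have hlogpos : 0 < Real.log (2 * (y : ℝ)) := by linarith
      rw [div_le_iff₀ hlogpos]
      have e1 : (1 / 2 : ℝ) ^ a = 1 / 2 ^ a := by rw [one_div_pow]
      have e2 : 480 * (x / L) * (1 / 2 : ℝ) ^ a * (L / 2) = 240 * (x / 2 ^ a) := by
        rw [e1]
        field_simp
        ring
      calc 120 * (2 * (y : ℝ)) ≤ 240 * (x / 2 ^ a) := by linarith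
        _ = 480 * (x / L) * (1 / 2 : ℝ) ^ a * (L / 2) := e2.symm
        _ ≤ _ := mul_le_mul_of_nonneg_left hlog (by positivity)
    have h4 : (1 : ℝ) ≤ 2 * (x / L) * (1 / 2) ^ a := by
      have e1 : (1 / 2 : ℝ) ^ a = 1 / 2 ^ a := by rw [one_div_pow]
      have e2 : 2 * ((x : ℝ) / L) * (1 / 2 : ℝ) ^ a = (2 * (x / 2 ^ a)) / L := by
        rw [e1]
        field_simp
      rw [e2, le_div_iff₀ hL0, one_mul]
      linarith
    have h5 : (0 : ℝ) ≤ (PW (2 * y)).card := Nat.cast_nonneg _
    calc ((OO y).card : ℝ) ≤ 2 + R * (PW (2 * y)).card := h1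
      _ ≤ R * 1 + R * (480 * (x / L) * (1 / 2) ^ a) := by
          have := mul_le_mul_of_nonneg_left (h2.trans h3) (by linarith : 0 ≤ R)
          linarith
      _ ≤ R * (4 * (x / L) * (1 / 2) ^ a) + R * (480 * (x / L) * (1 / 2) ^ a) := by
          have : R * 1 ≤ R * (4 * (x / L) * (1 / 2) ^ a) := mul_le_mul_of_nonneg_left (by linarith) (by linarith)
          linarith
      _ = _ := by ring
  have hsum : ∑ a ∈ range A, ((OO (x / 2 ^ a)).card : ℝ) ≤ R * 968 * (x / L) := by
    calc ∑ a ∈ range A, ((OO (x / 2 ^ a)).card : ℝ) ≤ ∑ a ∈ range A, R * 484 * (x / L) * (1 / 2) ^ a := Finset.sum_le_sum hrow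
      _ = R * 484 * (x / L) * ∑ a ∈ range A, (1 / 2 : ℝ) ^ a := by rw [Finset.mul_sum]
      _ ≤ R * 484 * (x / L) * 2 := by
          refine mul_le_mul_of_nonneg_left ?_ (by positivity)
          rw [geom_sum_eq (by norm_num)]
          have : (0 : ℝ) < (1 / 2) ^ A := by positivity
          have h9 : (((1 : ℝ) / 2) ^ A - 1) / (1 / 2 - 1) = 2 * (1 - (1 / 2) ^ A) := by ring
          rw [h9]
          linarith
      _ = _ := by ring
  have hlast : (x : ℝ) / 2 ^ A ≤ 2 * (x / L) := by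
    have h1 : x < 4 ^ A := Nat.lt_pow_succ_log_self (by norm_num) x
    have h2 : (x : ℝ) < (2 ^ A) ^ 2 := by
      have : ((2 : ℝ) ^ A) ^ 2 = 4 ^ A := by
        rw [← pow_mul, mul_comm, pow_mul]
        norm_num
      rw [this]
      exact_mod_cast h1
    have h3 : q ≤ 2 ^ A := by
      rw [hq]
      exact Real.sqrt_le_iff.mpr ⟨by positivity, h2.le⟩
    have h4 : (x : ℝ) / 2 ^ A ≤ q := by
      rw [div_le_iff₀ (by positivity)]
      calc (x : ℝ) = q * q := hqq.symm
        _ ≤ q * 2 ^ A := mul_le_mul_of_nonneg_left h3 (by linarith)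
    refine h4.trans ?_
    rw [← mul_div_assoc, le_div_iff₀ hL0, ← hqq]
    nlinarith
  have hfin := TT_card x A
  have hxL : 0 ≤ x / L := by positivity
  have hRle : R ≤ (1 / c + 2) * G := by
    rw [hR]
    have : G / c = 1 / c * G := by ring
    rw [this]
    nlinarith
  calc ((TT x).card : ℝ) ≤ R * 968 * (x / L) + 2 * (x / L) := by linarith
    _ ≤ R * 970 * (x / L) := by nlinarith
    _ ≤ ((1 / c + 2) * G) * 970 * (x / L) := by
        refine mul_le_mul_of_nonneg_right ?_ hxL
        linarith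
    _ = _ := by ring

end Pool.Agent.Helper15.CY
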