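import Mathlib

set_option autoImplicit false

namespace Pool.Agent.Helper15.CY

open Finset

/-- The product of `1 - 1/x` over a finite set. -/
def X (T : Finset ℕ) : ℚ := ∏ y ∈ T, (1 - (y : ℚ)⁻¹)

lemma fac_pos {y : ℕ} (hy : 2 ≤ y) : 0 < (1 - (y : ℚ)⁻¹) := by
  have h1 : (2 : ℚ) ≤ y := by exact_mod_cast hy
  have h2 : (y : ℚ)⁻¹ ≤ 2⁻¹ := inv_anti₀ (by norm_num) h1
  linarith

lemma fac_le {y : ℕ} : (1 - (y : ℚ)⁻¹) ≤ 1 := by
  have : 0 ≤ (y : ℚ)⁻¹ := by positivity
  linarith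

lemma X_pos {T : Finset ℕ} (hT : ∀ y ∈ T, 2 ≤ y) : 0 < X T := Finset.prod_pos fun y hy => fac_pos (hT y hy)

lemma X_le_one {T : Finset ℕ} (hT : ∀ y ∈ T, 2 ≤ y) : X T ≤ 1 :=
  Finset.prod_le_one (fun y hy => (fac_pos (hT y hy)).le) fun _ _ => fac_le

lemma X_split (T : Finset ℕ) (y : ℕ) : X T = X (T.filter (· < y)) * X (T.filter (fun x => ¬ x < y)) := by
  unfold X
  rw [Finset.prod_filter_mul_prod_filter_not]

/-- Weierstrass' inequality. -/
lemma prod_one_sub {ι : Type*} (S : Finset ι) (f : ι → ℚ) (h0 : ∀ i ∈ S, 0 ≤ f i) (h1 : ∀ i ∈ S, f i ≤ 1) :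
    1 - ∑ i ∈ S, f i ≤ ∏ i ∈ S, (1 - f i) := by
  classical
  induction S using Finset.induction_on with
  | empty => simp
  | insert a S ha ih =>
    rw [Finset.prod_insert ha, Finset.sum_insert ha]
    have ih' := ih (fun i hi => h0 i (Finset.mem_insert_of_mem hi)) (fun i hi => h1 i (Finset.mem_insert_of_mem hi))
    have a0 := h0 a (Finset.mem_insert_self _ _)
    have a1 := h1 a (Finset.mem_insert_self _ _)
    have s0 : 0 ≤ ∑ i ∈ S, f i := Finset.sum_nonneg fun i hi => h0 i (Finset.mem_insert_of_mem hi)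
    nlinarith

/-- The part of `T` above `y`: its factor is at least `1 - #/y`. -/
lemma X_high {T : Finset ℕ} {y : ℕ} (hy : 1 ≤ y) :
    1 - ((T.filter (fun x => ¬ x < y)).card : ℚ) / y ≤ X (T.filter (fun x => ¬ x < y)) := by
  unfold X
  have hy0 : (0 : ℚ) < y := by exact_mod_cast hy
  refine le_trans ?_ (prod_one_sub _ (fun x : ℕ => (x : ℚ)⁻¹) (fun i _ => by positivity) ?_)
  · have : ∑ i ∈ T.filter (fun x => ¬ x < y), ((i : ℚ)⁻¹) ≤ ∑ i ∈ T.filter (fun x => ¬ x < y), ((y : ℚ)⁻¹) := by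
      refine Finset.sum_le_sum fun i hi => ?_
      rw [Finset.mem_filter] at hi
      exact inv_anti₀ hy0 (by exact_mod_cast (by omega : y ≤ i))
    rw [Finset.sum_const, nsmul_eq_mul] at this
    rw [div_eq_mul_inv]
    linarith
  · intro i hi
    rw [Finset.mem_filter] at hi
    have : (1 : ℚ) ≤ i := by exact_mod_cast (by omega : 1 ≤ i)
    exact inv_le_one_of_one_le₀ this

/-- The value of a tuple of sets. -/
def V (s : ℕ) (T : ℕ → Finset ℕ) : ℚ := ∏ i ∈ range s, (1 + X (T i) / 2)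

/-- The rows below `y`. -/
def lo (T : ℕ → Finset ℕ) (y : ℕ) : ℕ → Finset ℕ := fun i => (T i).filter (· < y)

/-- The product of all entries. -/
def D (s : ℕ) (T : ℕ → Finset ℕ) : ℕ := ∏ i ∈ range s, ∏ x ∈ T i, x

/-- The number of all entries. -/
def N (s : ℕ) (T : ℕ → Finset ℕ) : ℕ := ∑ i ∈ range s, (T i).card

/-- The numerator. -/
def U (s : ℕ) (T : ℕ → Finset ℕ) : ℕ := ∏ i ∈ range s, (2 * ∏ x ∈ T i, x + ∏ x ∈ T i, (x - 1))

lemma row_eq {T : Finset ℕ} (hT : ∀ y ∈ T, 2 ≤ y) :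
    (1 + X T / 2) * (2 * ((∏ x ∈ T, x : ℕ) : ℚ)) = ((2 * ∏ x ∈ T, x + ∏ x ∈ T, (x - 1) : ℕ) : ℚ) := by
  have h1 : X T * ((∏ x ∈ T, x : ℕ) : ℚ) = ((∏ x ∈ T, (x - 1) : ℕ) : ℚ) := by
    unfold X
    rw [Nat.cast_prod, Nat.cast_prod, ← Finset.prod_mul_distrib]
    refine Finset.prod_congr rfl fun x hx => ?_
    have h2 := hT x hx
    have h3 : (x : ℚ) ≠ 0 := by exact_mod_cast (by omega : x ≠ 0)
    rw [Nat.cast_sub (by omega : 1 ≤ x)]
    field_simp
    simp
  rw [Nat.cast_add, Nat.cast_mul, ← h1]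
  push_cast
  ring

lemma V_eq {s : ℕ} {T : ℕ → Finset ℕ} (hT : ∀ i < s, ∀ y ∈ T i, 2 ≤ y) :
    V s T * (2 ^ s * (D s T : ℚ)) = (U s T : ℚ) := by
  unfold V D U
  rw [Nat.cast_prod, Nat.cast_prod]
  have : (2 : ℚ) ^ s = ∏ i ∈ range s, (2 : ℚ) := by simp
  rw [this, ← Finset.prod_mul_distrib, ← Finset.prod_mul_distrib]
  refine Finset.prod_congr rfl fun i hi => ?_
  rw [← row_eq (hT i (Finset.mem_range.mp hi))]

lemma D_pos {s : ℕ} {T : ℕ → Finset ℕ} (hT : ∀ i < s, ∀ y ∈ T i, 2 ≤ y) : 0 < D s T :=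
  Finset.prod_pos fun i hi => Finset.prod_pos fun x hx => by
    have := hT i (Finset.mem_range.mp hi) x hx
    omega

lemma V_le {s : ℕ} {T : ℕ → Finset ℕ} (hT : ∀ i < s, ∀ y ∈ T i, 2 ≤ y) : V s T ≤ (3 / 2) ^ s := by
  unfold V
  have : ((3 : ℚ) / 2) ^ s = ∏ i ∈ range s, ((3 : ℚ) / 2) := by rw [Finset.prod_const, Finset.card_range]
  rw [this]
  refine Finset.prod_le_prod (fun i hi => ?_) fun i hi => ?_
  · have := X_pos (hT i (Finset.mem_range.mp hi))
    linarith
  · have := X_le_one (hT i (Finset.mem_range.mp hi))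
    linarith

lemma V_pos {s : ℕ} {T : ℕ → Finset ℕ} (hT : ∀ i < s, ∀ y ∈ T i, 2 ≤ y) : 0 < V s T := by
  unfold V
  refine Finset.prod_pos fun i hi => ?_
  have := X_pos (hT i (Finset.mem_range.mp hi))
  linarith

lemma lo_two {s : ℕ} {T : ℕ → Finset ℕ} (hT : ∀ i < s, ∀ y ∈ T i, 2 ≤ y) (z : ℕ) : ∀ i < s, ∀ y ∈ lo T z i, 2 ≤ y :=
  fun i hi y hy => hT i hi y (Finset.mem_filter.mp hy).1

lemma row_ge {T : Finset ℕ} (hT : ∀ y ∈ T, 2 ≤ y) (z : ℕ) :
    (1 + X (T.filter (· < z)) / 2) * X (T.filter (fun x => ¬ x < z)) ≤ 1 + X T / 2 := by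
  have h1 := X_split T z
  have h2 : X (T.filter (fun x => ¬ x < z)) ≤ 1 := X_le_one fun y hy => hT y (Finset.mem_filter.mp hy).1
  rw [h1]
  nlinarith

/-- The low part is larger, by little. -/
lemma V_low {s : ℕ} {T : ℕ → Finset ℕ} (hT : ∀ i < s, ∀ y ∈ T i, 2 ≤ y) {y : ℕ} (hy : 1 ≤ y) :
    V s (lo T y) * (1 - (N s T : ℚ) / y) ≤ V s T := by
  have hy0 : (0 : ℚ) < y := by exact_mod_cast hy
  have h1 : V s (lo T y) * ∏ i ∈ range s, X ((T i).filter (fun x => ¬ x < y)) ≤ V s T := by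
    unfold V lo
    rw [← Finset.prod_mul_distrib]
    refine Finset.prod_le_prod (fun i hi => ?_) fun i hi => row_ge (hT i (Finset.mem_range.mp hi)) y
    have hi' := Finset.mem_range.mp hi
    have a1 := X_pos (T := (T i).filter (· < y)) fun x hx => hT i hi' x (Finset.mem_filter.mp hx).1
    have a2 := X_pos (T := (T i).filter (fun x => ¬ x < y)) fun x hx => hT i hi' x (Finset.mem_filter.mp hx).1
    positivity
  refine le_trans (mul_le_mul_of_nonneg_left ?_ (V_pos (lo_two hT y)).le) h1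
  have h2 : ∀ i ∈ range s, X ((T i).filter (fun x => ¬ x < y)) = 1 - (1 - X ((T i).filter (fun x => ¬ x < y))) := fun i _ => by ring
  rw [Finset.prod_congr rfl h2]
  refine le_trans ?_ (prod_one_sub _ _ ?_ ?_)
  · have h3 : ∑ i ∈ range s, (1 - X ((T i).filter (fun x => ¬ x < y))) ≤ ∑ i ∈ range s, ((T i).card : ℚ) / y := by
      refine Finset.sum_le_sum fun i _ => ?_
      have h4 := X_high (T := T i) hy
      have h5 : (((T i).filter (fun x => ¬ x < y)).card : ℚ) / y ≤ ((T i).card : ℚ) / y := by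
        apply div_le_div_of_nonneg_right _ hy0.le
        exact_mod_cast Finset.card_filter_le _ _
      linarith
    rw [← Finset.sum_div, ← Nat.cast_sum] at h3
    unfold N
    linarith
  · intro i hi
    have := X_le_one (T := (T i).filter (fun x => ¬ x < y)) fun x hx => hT i (Finset.mem_range.mp hi) x (Finset.mem_filter.mp hx).1
    linarith
  · intro i hi
    have := X_pos (T := (T i).filter (fun x => ¬ x < y)) fun x hx => hT i (Finset.mem_range.mp hi) x (Finset.mem_filter.mp hx).1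
    linarith

/-- The low part is at least as large. -/
lemma V_mono {s : ℕ} {T : ℕ → Finset ℕ} (hT : ∀ i < s, ∀ y ∈ T i, 2 ≤ y) (y : ℕ) : V s T ≤ V s (lo T y) := by
  unfold V lo
  refine Finset.prod_le_prod (fun i hi => ?_) fun i hi => ?_
  · have := X_pos (hT i (Finset.mem_range.mp hi))
    linarith
  · have hi' := Finset.mem_range.mp hi
    have a1 := X_pos (T := (T i).filter (· < y)) fun x hx => hT i hi' x (Finset.mem_filter.mp hx).1
    have a2 := X_le_one (T := (T i).filter (fun x => ¬ x < y)) fun x hx => hT i hi' x (Finset.mem_filter.mp hx).1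
    rw [X_split (T i) y]
    nlinarith

/-- Strictly larger if some row has an entry at least `y`. -/
lemma V_strict {s : ℕ} {T : ℕ → Finset ℕ} (hT : ∀ i < s, ∀ y ∈ T i, 2 ≤ y) {y j : ℕ} (hj : j < s) (hy : y ∈ T j) :
    V s T < V s (lo T y) := by
  unfold V lo
  refine Finset.prod_lt_prod (fun i hi => ?_) (fun i hi => ?_) ⟨j, Finset.mem_range.mpr hj, ?_⟩
  · have := X_pos (hT i (Finset.mem_range.mp hi))
    linarith
  · have hi' := Finset.mem_range.mp hi
    have a1 := X_pos (T := (T i).filter (· < y)) fun x hx => hT i hi' x (Finset.mem_filter.mp hx).1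
    have a2 := X_le_one (T := (T i).filter (fun x => ¬ x < y)) fun x hx => hT i hi' x (Finset.mem_filter.mp hx).1
    rw [X_split (T i) y]
    nlinarith
  · have a1 := X_pos (T := (T j).filter (· < y)) fun x hx => hT j hj x (Finset.mem_filter.mp hx).1
    have a2 : X ((T j).filter (fun x => ¬ x < y)) < 1 := by
      have hmem : y ∈ (T j).filter (fun x => ¬ x < y) := Finset.mem_filter.mpr ⟨hy, lt_irrefl y⟩
      have h1 : X ((T j).filter (fun x => ¬ x < y)) ≤ 1 - (y : ℚ)⁻¹ := by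
        unfold X
        rw [← Finset.mul_prod_erase _ _ hmem]
        have h2 : ∏ x ∈ ((T j).filter (fun x => ¬ x < y)).erase y, (1 - (x : ℚ)⁻¹) ≤ 1 := by
          refine Finset.prod_le_one (fun x hx => (fac_pos ?_).le) fun _ _ => fac_le
          exact hT j hj x (Finset.mem_filter.mp (Finset.mem_of_mem_erase hx)).1
        have h3 := (fac_pos (hT j hj y hy)).le
        nlinarith
      have h2 : 0 < (y : ℚ)⁻¹ := by
        have : (0 : ℚ) < y := by exact_mod_cast (by have := hT j hj y hy; omega : 0 < y)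
        positivity
      linarith
    rw [X_split (T j) y]
    nlinarith

/-- The gap lemma: an entry `y` is at most a constant times the product of the smaller entries. -/
lemma gap {s p M : ℕ} {T : ℕ → Finset ℕ} (hp : 2 ≤ p) (hT : ∀ i < s, ∀ y ∈ T i, 2 ≤ y) (hN : N s T ≤ M)
    (hV : V s T * (3 * p - 1) = 4 * p) {y : ℕ} (hy1 : 1 ≤ y) (hy : (∃ i < s, y ∈ T i) ∨ y = p) :
    y ≤ 3 ^ (s + 1) * (M + 1) * ((if p < y then p else 1) * D s (lo T y)) := by
  have hy0 : (0 : ℚ) < y := by exact_mod_cast hy1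
  have hp0 : (2 : ℚ) ≤ p := by exact_mod_cast hp
  have hTl := lo_two hT y
  have hDp : (0 : ℚ) < (D s (lo T y) : ℚ) := by exact_mod_cast D_pos hTl
  have hUeq := V_eq hTl
  have hVl := V_le hTl
  have hlow := V_low hT hy1
  have hVlp := V_pos hTl
  have h2s : (0 : ℚ) < 2 ^ s := by positivity
  have hNM : (N s T : ℚ) ≤ M := by exact_mod_cast hN
  have hdiff : V s (lo T y) - V s T ≤ (3 / 2) ^ s * (M / y) := by
    have h1 : V s (lo T y) * ((N s T : ℚ) / y) ≤ (3 / 2) ^ s * (M / y) := by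
      apply mul_le_mul hVl _ (by positivity) (by positivity)
      exact div_le_div_of_nonneg_right hNM hy0.le
    linarith
  have hVval : V s T = 4 * p / (3 * p - 1) := by
    rw [eq_div_iff (by linarith)]
    exact hV
  have h32 : ((3 : ℚ) / 2) ^ s * 2 ^ s = 3 ^ s := by
    rw [← mul_pow]; norm_num
  have h1le : (1 : ℚ) ≤ (3 / 2) ^ s := one_le_pow₀ (by norm_num)
  by_cases hpy : p < y
  · rw [if_pos hpy]
    obtain ⟨j, hj, hyj⟩ : ∃ i < s, y ∈ T i := by
      rcases hy with h | h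
      · exact h
      · omega
    have hst := V_strict hT hj hyj
    -- numerators
    have h1 : (1 : ℚ) ≤ (V s (lo T y) - V s T) * (2 ^ s * (D s (lo T y) : ℚ) * (3 * p - 1)) := by
      have h2 : (V s (lo T y) - V s T) * (2 ^ s * (D s (lo T y) : ℚ) * (3 * p - 1)) =
          (U s (lo T y) : ℚ) * (3 * p - 1) - 4 * p * (2 ^ s * (D s (lo T y) : ℚ)) := by
        rw [← hUeq, ← hV]; ring
      have h3 : 0 < (V s (lo T y) - V s T) * (2 ^ s * (D s (lo T y) : ℚ) * (3 * p - 1)) := by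
        apply mul_pos (by linarith)
        apply mul_pos (by positivity) (by linarith)
      rw [h2] at h3 ⊢
      have h4 : ((U s (lo T y) : ℤ) * (3 * p - 1) - 4 * p * (2 ^ s * (D s (lo T y) : ℤ)) : ℤ) > 0 := by
        exact_mod_cast h3
      exact_mod_cast h4
    have h5 : (y : ℚ) ≤ 3 ^ (s + 1) * (M + 1) * (p * D s (lo T y)) := by
      have h6 : (1 : ℚ) ≤ (3 / 2) ^ s * (M / y) * (2 ^ s * (D s (lo T y) : ℚ) * (3 * p - 1)) :=
        h1.trans (mul_le_mul_of_nonneg_right hdiff (mul_nonneg (by positivity) (by linarith)))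
      have h7 : (3 / 2 : ℚ) ^ s * (M / y) * (2 ^ s * (D s (lo T y) : ℚ) * (3 * p - 1)) * y =
          3 ^ s * M * (D s (lo T y) : ℚ) * (3 * p - 1) := by
        rw [← h32]; field_simp
      have h8 : (y : ℚ) ≤ 3 ^ s * M * (D s (lo T y) : ℚ) * (3 * p - 1) := by
        rw [← h7]
        nlinarith
      refine h8.trans ?_
      have h9 : (3 : ℚ) ^ s * M * (D s (lo T y) : ℚ) * (3 * p - 1) ≤ 3 ^ s * (M + 1) * (D s (lo T y) : ℚ) * (3 * p) := by
        gcongr
        · linarith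
        · linarith
        · linarith
      refine h9.trans (le_of_eq ?_)
      rw [pow_succ]; ring
    exact_mod_cast h5
  · rw [if_neg hpy, one_mul]
    have hyp : (y : ℚ) ≤ p := by exact_mod_cast (by omega : y ≤ p)
    have hVgt : (4 : ℚ) / 3 < V s T := by
      rw [hVval, div_lt_div_iff₀ (by norm_num) (by linarith)]
      linarith
    have hmono := V_mono hT y
    have h1 : (1 : ℚ) ≤ (V s (lo T y) - 4 / 3) * (3 * (2 ^ s * (D s (lo T y) : ℚ))) := by
      have h2 : (V s (lo T y) - 4 / 3) * (3 * (2 ^ s * (D s (lo T y) : ℚ))) =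
          3 * (U s (lo T y) : ℚ) - 4 * (2 ^ s * (D s (lo T y) : ℚ)) := by
        rw [← hUeq]; ring
      have h3 : 0 < (V s (lo T y) - 4 / 3) * (3 * (2 ^ s * (D s (lo T y) : ℚ))) := by
        apply mul_pos (by linarith)
        positivity
      rw [h2] at h3 ⊢
      have h4 : ((3 * (U s (lo T y) : ℤ)) - 4 * (2 ^ s * (D s (lo T y) : ℤ)) : ℤ) > 0 := by
        exact_mod_cast h3
      exact_mod_cast h4
    have h43 : V s T - 4 / 3 ≤ (3 / 2) ^ s * (1 / y) := by
      have h5 : V s T - 4 / 3 ≤ 1 / y := by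
        rw [hVval, sub_le_iff_le_add, div_le_iff₀ (by linarith)]
        have h6 : (1 : ℚ) / y ≥ 1 / p := one_div_le_one_div_of_le hy0 hyp
        have h7 : (1 : ℚ) / p * p = 1 := by field_simp
        have h8 : (1 : ℚ) / p ≤ 1 / 2 := one_div_le_one_div_of_le (by norm_num) hp0
        have h9 : (1 : ℚ) / p * (3 * p - 1) ≤ 1 / y * (3 * p - 1) := mul_le_mul_of_nonneg_right h6 (by linarith)
        have h10 : (1 : ℚ) / p * (3 * p - 1) = 3 - 1 / p := by
          rw [mul_sub, mul_one, show (1 : ℚ) / p * (3 * p) = 3 * (1 / p * p) by ring, h7]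
          ring
        have h11 : ((1 : ℚ) / y + 4 / 3) * (3 * p - 1) = 1 / y * (3 * p - 1) + 4 * p - 4 / 3 := by ring
        rw [h11]
        linarith
      have : (0 : ℚ) ≤ 1 / y := by positivity
      nlinarith
    have h5 : (y : ℚ) ≤ 3 ^ (s + 1) * (M + 1) * (D s (lo T y)) := by
      have h6 : V s (lo T y) - 4 / 3 ≤ (3 / 2) ^ s * ((M + 1) / y) := by
        have : ((M : ℚ) + 1) / y = M / y + 1 / y := by rw [add_div]
        rw [this, mul_add]
        linarith
      have h7 : (1 : ℚ) ≤ (3 / 2) ^ s * ((M + 1) / y) * (3 * (2 ^ s * (D s (lo T y) : ℚ))) :=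
        h1.trans (mul_le_mul_of_nonneg_right h6 (by positivity))
      have h8 : (3 / 2 : ℚ) ^ s * ((M + 1) / y) * (3 * (2 ^ s * (D s (lo T y) : ℚ))) * y =
          3 ^ s * (M + 1) * (3 * (D s (lo T y) : ℚ)) := by
        rw [← h32]; field_simp
      have h9 : (y : ℚ) ≤ 3 ^ s * (M + 1) * (3 * (D s (lo T y) : ℚ)) := by
        rw [← h8]
        nlinarith
      refine h9.trans (le_of_eq ?_)
      rw [pow_succ]; ring
    exact_mod_cast h5

end Pool.Agent.Helper15.CY
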