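import Pool.Agent.Helper15.CY.Gap

set_option autoImplicit false

namespace Pool.Agent.Helper15.CY

open Finset

lemma row_step (T : Finset ℕ) (y : ℕ) :
    ∏ x ∈ T.filter (· < y + 1), x = (∏ x ∈ T.filter (· < y), x) * y ^ (if y ∈ T then 1 else 0) ∧
      (T.filter (· < y + 1)).card = (T.filter (· < y)).card + (if y ∈ T then 1 else 0) := by
  by_cases h : y ∈ T
  · have h1 : T.filter (· < y + 1) = insert y (T.filter (· < y)) := by
      ext x
      simp only [Finset.mem_filter, Finset.mem_insert]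
      constructor
      · rintro ⟨a, b⟩
        rcases Nat.lt_succ_iff_lt_or_eq.mp b with c | c
        · exact Or.inr ⟨a, c⟩
        · exact Or.inl c
      · rintro (a | ⟨a, b⟩)
        · subst a
          exact ⟨h, Nat.lt_succ_self _⟩
        · exact ⟨a, by omega⟩
    have h2 : y ∉ T.filter (· < y) := by simp
    rw [h1, Finset.prod_insert h2, Finset.card_insert_of_notMem h2]
    simp [h, mul_comm]
  · have h1 : T.filter (· < y + 1) = T.filter (· < y) := by
      ext x
      simp only [Finset.mem_filter]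
      constructor
      · rintro ⟨a, b⟩
        refine ⟨a, ?_⟩
        rcases Nat.lt_succ_iff_lt_or_eq.mp b with c | c
        · exact c
        · subst c
          exact absurd a h
      · rintro ⟨a, b⟩
        exact ⟨a, by omega⟩
    rw [h1]
    simp [h]

lemma D_step (s : ℕ) (T : ℕ → Finset ℕ) (y : ℕ) :
    D s (lo T (y + 1)) = D s (lo T y) * y ^ (∑ i ∈ range s, if y ∈ T i then 1 else 0) := by
  unfold D lo
  rw [← Finset.prod_pow_eq_pow_sum, ← Finset.prod_mul_distrib]
  exact Finset.prod_congr rfl fun i _ => (row_step (T i) y).1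

lemma N_step (s : ℕ) (T : ℕ → Finset ℕ) (y : ℕ) :
    N s (lo T (y + 1)) = N s (lo T y) + (∑ i ∈ range s, if y ∈ T i then 1 else 0) := by
  unfold N lo
  rw [← Finset.sum_add_distrib]
  exact Finset.sum_congr rfl fun i _ => (row_step (T i) y).2

lemma grow {s p M : ℕ} {T : ℕ → Finset ℕ} (hp : 2 ≤ p) (hT : ∀ i < s, ∀ y ∈ T i, 2 ≤ y) (hN : N s T ≤ M)
    (hV : V s T * (3 * p - 1) = 4 * p) (y : ℕ) :
    3 ^ (s + 1) * (M + 1) * ((if p < y then p else 1) * D s (lo T y)) ≤
      (3 ^ (s + 1) * (M + 1)) ^ (2 ^ (N s (lo T y) + (if p < y then 1 else 0))) := by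
  have hC : 1 ≤ 3 ^ (s + 1) * (M + 1) := Nat.mul_pos (by positivity) (by omega)
  set C := 3 ^ (s + 1) * (M + 1) with hCdef
  induction y with
  | zero =>
    have h1 : ∀ i, lo T 0 i = ∅ := fun i => by simp [lo]
    simp [D, N, h1]
  | succ y ih =>
    set m := ∑ i ∈ range s, (if y ∈ T i then 1 else 0) with hm
    have h1 := D_step s T y
    have h2 := N_step s T y
    rw [← hm] at h1 h2
    obtain ⟨μ, hμ1, hμ2⟩ : ∃ μ, (if p < y + 1 then p else 1) * D s (lo T (y + 1)) =
        ((if p < y then p else 1) * D s (lo T y)) * y ^ μ ∧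
        N s (lo T (y + 1)) + (if p < y + 1 then 1 else 0) = N s (lo T y) + (if p < y then 1 else 0) + μ ∧
        (μ ≠ 0 → (∃ i < s, y ∈ T i) ∨ y = p) := by
      rcases lt_trichotomy p y with h | h | h
      · refine ⟨m, ?_, ?_, fun hm0 => Or.inl ?_⟩
        · rw [if_pos h, if_pos (show p < y + 1 by omega), h1]; ring
        · rw [if_pos h, if_pos (show p < y + 1 by omega), h2]; ring
        · by_contra hno
          push Not at hno
          apply hm0
          rw [hm]
          refine Finset.sum_eq_zero fun i hi => ?_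
          rw [if_neg (hno i (Finset.mem_range.mp hi))]
      · refine ⟨m + 1, ?_, ?_, fun _ => Or.inr h.symm⟩
        · rw [if_neg (show ¬ p < y by omega), if_pos (show p < y + 1 by omega), h1, pow_succ, h]; ring
        · rw [if_neg (show ¬ p < y by omega), if_pos (show p < y + 1 by omega), h2]; ring
      · refine ⟨m, ?_, ?_, fun hm0 => Or.inl ?_⟩
        · rw [if_neg (show ¬ p < y by omega), if_neg (show ¬ p < y + 1 by omega), h1]; ring
        · rw [if_neg (show ¬ p < y by omega), if_neg (show ¬ p < y + 1 by omega), h2]; ring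
        · by_contra hno
          push Not at hno
          apply hm0
          rw [hm]
          refine Finset.sum_eq_zero fun i hi => ?_
          rw [if_neg (hno i (Finset.mem_range.mp hi))]
    obtain ⟨hμ2, hμ3⟩ := hμ2
    rw [hμ1, hμ2]
    rcases Nat.eq_zero_or_pos μ with h0 | h0
    · subst h0
      simpa using ih
    · have hel := hμ3 (by omega)
      have hy1 : 1 ≤ y := by
        rcases hel with ⟨i, hi, hyi⟩ | h
        · have := hT i hi y hyi
          omega
        · omega
      have hg := gap hp hT hN hV hy1 hel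
      rw [← hCdef] at hg
      set A := C * ((if p < y then p else 1) * D s (lo T y)) with hA
      set e := N s (lo T y) + (if p < y then 1 else 0) with he
      calc C * ((if p < y then p else 1) * D s (lo T y) * y ^ μ) = A * y ^ μ := by rw [hA]; ring
        _ ≤ A * A ^ μ := Nat.mul_le_mul_left _ (Nat.pow_le_pow_left hg μ)
        _ = A ^ (μ + 1) := by ring
        _ ≤ (C ^ (2 ^ e)) ^ (μ + 1) := Nat.pow_le_pow_left ih _
        _ = C ^ (2 ^ e * (μ + 1)) := by rw [← pow_mul]
        _ ≤ C ^ (2 ^ (e + μ)) := by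
          apply Nat.pow_le_pow_right hC
          have h9 : 2 ^ (e + μ) = 2 ^ e * 2 ^ μ := pow_add 2 e μ
          have h10 : μ + 1 ≤ 2 ^ μ := Nat.lt_two_pow_self
          rw [h9]
          exact Nat.mul_le_mul_left _ h10

/-- The product of all entries is bounded. -/
theorem total {s p M : ℕ} {T : ℕ → Finset ℕ} (hp : 2 ≤ p) (hT : ∀ i < s, ∀ y ∈ T i, 2 ≤ y) (hN : N s T ≤ M)
    (hV : V s T * (3 * p - 1) = 4 * p) : p * D s T ≤ (3 ^ (s + 1) * (M + 1)) ^ (2 ^ (M + 1)) := by
  have hC : 1 ≤ 3 ^ (s + 1) * (M + 1) := Nat.mul_pos (by positivity) (by omega)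
  have hD := D_pos hT
  have hdvd : ∀ i < s, ∀ y ∈ T i, y ≤ D s T := by
    intro i hi y hy
    apply Nat.le_of_dvd hD
    exact (Finset.dvd_prod_of_mem _ hy).trans (Finset.dvd_prod_of_mem (fun i => ∏ x ∈ T i, x) (Finset.mem_range.mpr hi))
  have hlo : ∀ i ∈ range s, lo T (p + D s T + 1) i = T i := by
    intro i hi
    unfold lo
    rw [Finset.filter_eq_self]
    intro x hx
    have := hdvd i (Finset.mem_range.mp hi) x hx
    omega
  have h1 : D s (lo T (p + D s T + 1)) = D s T := by
    have : ∀ i ∈ range s, ∏ x ∈ lo T (p + D s T + 1) i, x = ∏ x ∈ T i, x := fun i hi => by rw [hlo i hi]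
    exact Finset.prod_congr rfl this
  have h2 : N s (lo T (p + D s T + 1)) = N s T := by
    unfold N
    exact Finset.sum_congr rfl fun i hi => by rw [hlo i hi]
  have h3 := grow hp hT hN hV (p + D s T + 1)
  rw [h1, h2, if_pos (show p < p + D s T + 1 by omega), if_pos (show p < p + D s T + 1 by omega)] at h3
  calc p * D s T ≤ 3 ^ (s + 1) * (M + 1) * (p * D s T) := Nat.le_mul_of_pos_left _ hC
    _ ≤ _ := h3
    _ ≤ _ := Nat.pow_le_pow_right hC (Nat.pow_le_pow_right (by norm_num) (by omega))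

/-- The length is bounded by the number of entries per row. -/
theorem length_le {s p K : ℕ} {T : ℕ → Finset ℕ} (hp : 7 ≤ p) (hT : ∀ i < s, ∀ y ∈ T i, 3 ≤ y) (hK : ∀ i < s, (T i).card ≤ K)
    (hV : V s T * (3 * p - 1) = 4 * p) : 2 ^ K * s ≤ 3 ^ K := by
  have hp0 : (7 : ℚ) ≤ p := by exact_mod_cast hp
  have h1 : ∀ i ∈ range s, (1 : ℚ) + (2 / 3) ^ K / 2 ≤ 1 + X (T i) / 2 := by
    intro i hi
    have hi' := Finset.mem_range.mp hi
    have h2 : ((2 : ℚ) / 3) ^ (T i).card ≤ X (T i) := by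
      unfold X
      rw [← Finset.prod_const]
      refine Finset.prod_le_prod (fun _ _ => by norm_num) fun y hy => ?_
      have h3 : (3 : ℚ) ≤ y := by exact_mod_cast hT i hi' y hy
      have h4 : (y : ℚ)⁻¹ ≤ 3⁻¹ := inv_anti₀ (by norm_num) h3
      linarith
    have h3 : ((2 : ℚ) / 3) ^ K ≤ (2 / 3) ^ (T i).card := pow_le_pow_of_le_one (by norm_num) (by norm_num) (hK i hi')
    linarith
  have h2 : ((1 : ℚ) + (2 / 3) ^ K / 2) ^ s ≤ V s T := by
    unfold V
    have : ((1 : ℚ) + (2 / 3) ^ K / 2) ^ s = ∏ i ∈ range s, ((1 : ℚ) + (2 / 3) ^ K / 2) := by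
      rw [Finset.prod_const, Finset.card_range]
    rw [this]
    exact Finset.prod_le_prod (fun _ _ => by positivity) h1
  have h3 : (1 : ℚ) + s * ((2 / 3) ^ K / 2) ≤ (1 + (2 / 3) ^ K / 2) ^ s := by
    have h0 : (0 : ℚ) ≤ (2 / 3) ^ K / 2 := by positivity
    exact one_add_mul_le_pow (by linarith) s
  have h4 : V s T ≤ 3 / 2 := by
    have : V s T * (3 * p - 1) ≤ 3 / 2 * (3 * p - 1) := by rw [hV]; linarith
    exact le_of_mul_le_mul_right this (by linarith)
  have h5 : (s : ℚ) * (2 / 3) ^ K ≤ 1 := by linarith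
  have h6 : (2 : ℚ) ^ K * s ≤ 3 ^ K := by
    have h7 : ((2 : ℚ) / 3) ^ K * 3 ^ K = 2 ^ K := by rw [← mul_pow]; norm_num
    have h8 : (0 : ℚ) < 3 ^ K := by positivity
    calc (2 : ℚ) ^ K * s = (s * (2 / 3) ^ K) * 3 ^ K := by rw [← h7]; ring
      _ ≤ 1 * 3 ^ K := mul_le_mul_of_nonneg_right h5 h8.le
      _ = _ := one_mul _
  exact_mod_cast h6

end Pool.Agent.Helper15.CY
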