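import Pool.Agent.Helper15.CY.Few

set_option autoImplicit false
open Nat Filter N9cdb51e1

namespace Pool.Agent.Helper15.CY

open Finset Pool.Agent.Helper51.Phi

/-- Comparison with an initial set: `P` contains all elements of `T` up to `y`, and is at least as large as `T`. -/
lemma X_initial {P T : Finset ℕ} {y : ℕ} (hy : 2 ≤ y) (hP : ∀ x ∈ P, 2 ≤ x ∧ x ≤ y) (_hT : ∀ x ∈ T, 2 ≤ x)
    (hTP : ∀ x ∈ T, x ≤ y → x ∈ P) (hc : T.card ≤ P.card) : X P ≤ X T := by
  have e1 : X P = X (P ∩ T) * X (P \ T) := by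
    unfold X
    rw [mul_comm, ← Finset.prod_sdiff (Finset.inter_subset_left : P ∩ T ⊆ P), Finset.sdiff_inter_self_left]
  have e2 : X T = X (P ∩ T) * X (T \ P) := by
    unfold X
    rw [mul_comm, ← Finset.prod_sdiff (Finset.inter_subset_right : P ∩ T ⊆ T), Finset.inter_comm, Finset.sdiff_inter_self_left]
  have h0 : 0 < X (P ∩ T) := X_pos fun x hx => (hP x (Finset.mem_inter.mp hx).1).1
  rw [e1, e2]
  refine mul_le_mul_of_nonneg_left ?_ h0.le
  have hf0 : 0 < (1 - (y : ℚ)⁻¹) := fac_pos hy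
  have hc1 : (P \ T).card + (P ∩ T).card = P.card := by
    rw [Finset.card_sdiff_add_card_inter]
  have hc2 : (T \ P).card + (P ∩ T).card = T.card := by
    rw [Finset.inter_comm, Finset.card_sdiff_add_card_inter]
  calc X (P \ T) ≤ (1 - (y : ℚ)⁻¹) ^ (P \ T).card := by
        unfold X
        rw [← Finset.prod_const]
        refine Finset.prod_le_prod (fun x hx => (fac_pos (hP x (Finset.mem_sdiff.mp hx).1).1).le) fun x hx => ?_
        have h1 := hP x (Finset.mem_sdiff.mp hx).1
        have h2 : (y : ℚ)⁻¹ ≤ (x : ℚ)⁻¹ := inv_anti₀ (by exact_mod_cast (by omega : 0 < x)) (by exact_mod_cast h1.2)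
        linarith
    _ ≤ (1 - (y : ℚ)⁻¹) ^ (T \ P).card := pow_le_pow_of_le_one hf0.le fac_le (by omega)
    _ ≤ X (T \ P) := by
        unfold X
        rw [← Finset.prod_const]
        refine Finset.prod_le_prod (fun _ _ => hf0.le) fun x hx => ?_
        have h1 := Finset.mem_sdiff.mp hx
        have h3 : y ≤ x := by
          by_contra hcon
          exact h1.2 (hTP x h1.1 (by omega))
        have h2 : (x : ℚ)⁻¹ ≤ (y : ℚ)⁻¹ := inv_anti₀ (by exact_mod_cast (by omega : 0 < y)) (by exact_mod_cast h3)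
        linarith

/-- the primes from 5 to 211 -/
def L5 : List ℕ := [5, 7, 11, 13, 17, 19, 23, 29, 31, 37, 41, 43, 47, 53, 59, 61, 67, 71, 73, 79, 83, 89, 97, 101, 103, 107, 109, 113, 127,
  131, 137, 139, 149, 151, 157, 163, 167, 173, 179, 181, 191, 193, 197, 199, 211]

/-- 3 and the primes `2 mod 3` from 5 to 449 -/
def L3 : List ℕ := [3, 5, 11, 17, 23, 29, 41, 47, 53, 59, 71, 83, 89, 101, 107, 113, 131, 137, 149, 167, 173, 179, 191, 197, 227, 233, 239,
  251, 257, 263, 269, 281, 293, 311, 317, 347, 353, 359, 383, 389, 401, 419, 431, 443, 449]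

lemma L5_card : L5.toFinset.card = 45 := by decide +kernel
lemma L3_card : L3.toFinset.card = 45 := by decide +kernel

lemma X_list {l : List ℕ} (hl : l.Nodup) (h1 : ∀ x ∈ l, 1 ≤ x) :
    X l.toFinset * ((l.prod : ℕ) : ℚ) = (((l.map (· - 1)).prod : ℕ) : ℚ) := by
  unfold X
  rw [List.prod_toFinset _ hl]
  induction l with
  | nil => simp
  | cons a t ih =>
    rw [List.nodup_cons] at hl
    have ha := h1 a List.mem_cons_self
    have ih' := ih hl.2 (fun x hx => h1 x (List.mem_cons_of_mem _ hx))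
    rw [List.map_cons, List.prod_cons, List.prod_cons, List.map_cons, List.prod_cons]
    rw [Nat.cast_mul, Nat.cast_mul, Nat.cast_sub ha, ← ih']
    have h0 : (a : ℚ) ≠ 0 := by exact_mod_cast (by omega : a ≠ 0)
    have : (1 - (a : ℚ)⁻¹) * a = a - 1 := by field_simp
    rw [Nat.cast_one, ← this]
    ring

lemma X_L5 : (3102 : ℚ) / 10000 ≤ X L5.toFinset := by
  have h1 := X_list (l := L5) (by decide +kernel) (by decide +kernel)
  have h2 : 3102 * L5.prod ≤ 10000 * (L5.map (· - 1)).prod := by decide +kernel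
  have h3 : (0 : ℚ) < ((L5.prod : ℕ) : ℚ) := by exact_mod_cast (by decide +kernel : 0 < L5.prod)
  have h4 : (3102 : ℚ) * ((L5.prod : ℕ) : ℚ) ≤ 10000 * (((L5.map (· - 1)).prod : ℕ) : ℚ) := by exact_mod_cast h2
  rw [← h1] at h4
  have h5 : (3102 : ℚ) ≤ 10000 * X L5.toFinset := by
    by_contra hcon
    push Not at hcon
    nlinarith
  linarith

lemma X_L3 : (3102 : ℚ) / 10000 ≤ X L3.toFinset := by
  have h1 := X_list (l := L3) (by decide +kernel) (by decide +kernel)
  have h2 : 3102 * L3.prod ≤ 10000 * (L3.map (· - 1)).prod := by decide +kernel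
  have h3 : (0 : ℚ) < ((L3.prod : ℕ) : ℚ) := by exact_mod_cast (by decide +kernel : 0 < L3.prod)
  have h4 : (3102 : ℚ) * ((L3.prod : ℕ) : ℚ) ≤ 10000 * (((L3.map (· - 1)).prod : ℕ) : ℚ) := by exact_mod_cast h2
  rw [← h1] at h4
  have h5 : (3102 : ℚ) ≤ 10000 * X L3.toFinset := by
    by_contra hcon
    push Not at hcon
    nlinarith
  linarith

lemma mem_L5 : ∀ x < 212, isP x = true → 5 ≤ x → x ∈ L5.toFinset := by decide +kernel
lemma mem_L3 : ∀ x < 450, isP x = true → x % 3 ≠ 1 → 3 ≤ x → x ∈ L3.toFinset := by decide +kernel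
lemma bd_L5 : ∀ x ∈ L5.toFinset, 2 ≤ x ∧ x ≤ 211 := by decide +kernel
lemma bd_L3 : ∀ x ∈ L3.toFinset, 2 ≤ x ∧ x ≤ 449 := by decide +kernel

/-- primes from 5 on -/
lemma X_five {T : Finset ℕ} (hT : ∀ x ∈ T, x.Prime ∧ 5 ≤ x) (hc : T.card ≤ 45) : (3102 : ℚ) / 10000 ≤ X T := by
  refine X_L5.trans (X_initial (y := 211) (by norm_num) bd_L5 (fun x hx => (hT x hx).1.two_le) ?_ (by rw [L5_card]; exact hc))
  intro x hx h1
  exact mem_L5 x (by omega) (isP_of_prime (hT x hx).1) (hT x hx).2

/-- 3 and primes `2 mod 3` -/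
lemma X_three {T : Finset ℕ} (hT : ∀ x ∈ T, x.Prime ∧ x ≠ 2 ∧ x % 3 ≠ 1) (hc : T.card ≤ 45) : (3102 : ℚ) / 10000 ≤ X T := by
  refine X_L3.trans (X_initial (y := 449) (by norm_num) bd_L3 (fun x hx => (hT x hx).1.two_le) ?_ (by rw [L3_card]; exact hc))
  intro x hx h1
  refine mem_L3 x (by omega) (isP_of_prime (hT x hx).1) (hT x hx).2.2 ?_
  have := (hT x hx).1.two_le
  have := (hT x hx).2.1
  omega

/-- No chain of length at least two with at most 45 prime factors in each term. -/
theorem no_long45 {p e q s : ℕ} (hp : p.Prime) (hp8 : p % 8 = 7) (he : 1 ≤ e) (hq : 4 * q + 1 = 3 * p) (hs : 2 ≤ s)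
    (hend : h^[s] (p ^ (e - 1) * q) = p ^ e) (hodd : ∀ i < s, Odd (h^[i] (p ^ (e - 1) * q)))
    (hcard : ∀ i < s, (h^[i] (p ^ (e - 1) * q)).primeFactors.card ≤ 45) : False := by
  have hp7 : 7 ≤ p := by omega
  have hV := chain_V hp hp7 he hq hend
  have hpe1 : 1 ≤ p ^ (e - 1) := Nat.one_le_pow _ _ hp.pos
  have hc3 : 3 ≤ p ^ (e - 1) * q := by nlinarith
  set T : ℕ → Finset ℕ := fun i => (h^[i] (p ^ (e - 1) * q)).primeFactors with hT
  have hT3 : ∀ i < s, ∀ y ∈ T i, 3 ≤ y := entries hodd
  have hTp : ∀ i < s, ∀ y ∈ T i, y.Prime ∧ y ≠ 2 := by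
    intro i hi y hy
    exact odd_primeFactors (hodd i hi) y hy
  have hT5 : ∀ y ∈ T 0, y.Prime ∧ 5 ≤ y := by
    intro y hy
    have h1 := hT3 0 (by omega) y hy
    have h2 := hTp 0 (by omega) y hy
    have h3 : y ∣ p ^ (e - 1) * q := by
      have := Nat.dvd_of_mem_primeFactors hy
      simpa using this
    have h4 : y ≠ 3 := by
      rintro rfl
      rcases (Nat.Prime.dvd_mul Nat.prime_three).mp h3 with h5 | h5
      · have h6 := Nat.Prime.dvd_of_dvd_pow Nat.prime_three h5
        have := (Nat.prime_dvd_prime_iff_eq Nat.prime_three hp).mp h6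
        omega
      · omega
    have h5 : y ≠ 4 := by
      rintro rfl
      exact absurd h2.1 (by norm_num)
    exact ⟨h2.1, by omega⟩
  have h0 := X_five hT5 (hcard 0 (by omega))
  have h1 : (3102 : ℚ) / 10000 ≤ X (T (s - 1)) := by
    by_cases h3 : 3 ∈ T (s - 1)
    · refine X_three ?_ (hcard (s - 1) (by omega))
      intro x hx
      refine ⟨(hTp (s - 1) (by omega) x hx).1, (hTp (s - 1) (by omega) x hx).2, fun hx1 => ?_⟩
      -- `3 ∣ b`, `3 ∣ φ b`, so `3 ∣ h b = p ^ e`
      set b := h^[s - 1] (p ^ (e - 1) * q) with hb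
      have hbend : h b = p ^ e := by
        rw [hb, ← Function.iterate_succ_apply' h, show (s - 1).succ = s by omega]
        exact hend
      have h4 : 3 ∣ b := Nat.dvd_of_mem_primeFactors h3
      have hxp := (hTp (s - 1) (by omega) x hx).1
      have h5 : 3 ∣ φ b := by
        have h6 : 3 ∣ x - 1 := by omega
        have h7 : φ x ∣ φ b := Nat.totient_dvd_of_dvd (Nat.dvd_of_mem_primeFactors hx)
        rw [Nat.totient_prime hxp] at h7
        exact h6.trans h7
      have hb3 : 3 ≤ b := hc3.trans (h_iter_ge _ _)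
      have hev : 2 ∣ φ b := even_iff_two_dvd.mp (Nat.totient_even (by omega))
      have h6 : 3 ∣ h b := by
        unfold Pool.Agent.Helper51.Phi.h
        refine Nat.dvd_add h4 ?_
        omega
      rw [hbend] at h6
      have h7 := Nat.Prime.dvd_of_dvd_pow Nat.prime_three h6
      have := (Nat.prime_dvd_prime_iff_eq Nat.prime_three hp).mp h7
      omega
    · refine X_five ?_ (hcard (s - 1) (by omega))
      intro x hx
      have h4 := hTp (s - 1) (by omega) x hx
      have h5 := hT3 (s - 1) (by omega) x hx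
      have h6 : x ≠ 3 := by
        rintro rfl
        exact h3 hx
      have h7 : x ≠ 4 := by
        rintro rfl
        exact absurd h4.1 (by norm_num)
      exact ⟨h4.1, by omega⟩
  have hVge : (1 + X (T 0) / 2) * (1 + X (T (s - 1)) / 2) ≤ V s T := by
    unfold V
    have hsub : ({0, s - 1} : Finset ℕ) ⊆ range s := by
      intro i hi
      rw [Finset.mem_range]
      rcases Finset.mem_insert.mp hi with h | h
      · omega
      · rw [Finset.mem_singleton.mp h]; omega
    have hpair : ∏ i ∈ ({0, s - 1} : Finset ℕ), (1 + X (T i) / 2) = (1 + X (T 0) / 2) * (1 + X (T (s - 1)) / 2) :=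
      Finset.prod_pair (by omega)
    rw [← hpair]
    refine Finset.prod_le_prod_of_subset_of_one_le hsub (fun i hi => ?_) (fun i hi _ => ?_)
    · have := X_pos (T := T i) fun y hy => by have := hT3 i (Finset.mem_range.mp (hsub hi)) y hy; omega
      linarith
    · have := X_pos (T := T i) fun y hy => by have := hT3 i (Finset.mem_range.mp hi) y hy; omega
      linarith
  have hp0 : (7 : ℚ) ≤ p := by exact_mod_cast hp7
  rcases Nat.lt_or_ge p 600 with hlt | hge
  · -- small `p`
    have hqo : Odd q := by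
      have := hodd 0 (by omega)
      simp only [Function.iterate_zero, id_eq] at this
      exact (Nat.odd_mul.mp this).2
    have hx := x_six_small hqo (by omega) (by omega)
    rw [x_eq_X (by omega)] at hx
    have hX0 : (1 - (p : ℚ)⁻¹) * X q.primeFactors ≤ X (T 0) := by
      have hpn : p ∉ q.primeFactors := by
        intro hcon
        have := Nat.le_of_mem_primeFactors hcon
        omega
      have hi : X (insert p q.primeFactors) = (1 - (p : ℚ)⁻¹) * X q.primeFactors := by
        unfold X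
        rw [Finset.prod_insert hpn]
      rw [← hi]
      have hsub : T 0 ⊆ insert p q.primeFactors := by
        intro y hy
        have hyp := (hT5 y hy).1
        have h3 : y ∣ p ^ (e - 1) * q := by
          have := Nat.dvd_of_mem_primeFactors hy
          simpa using this
        rcases (Nat.Prime.dvd_mul hyp).mp h3 with h5 | h5
        · have h6 := Nat.Prime.dvd_of_dvd_pow hyp h5
          rw [(Nat.prime_dvd_prime_iff_eq hyp hp).mp h6]
          exact Finset.mem_insert_self _ _
        · exact Finset.mem_insert_of_mem (Nat.mem_primeFactors.mpr ⟨hyp, h5, by omega⟩)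
      unfold X
      rw [← Finset.prod_sdiff hsub]
      have h8 : (∏ x ∈ insert p q.primeFactors \ T 0, (1 - (x : ℚ)⁻¹)) ≤ 1 := by
        apply X_le_one
        intro y hy
        rcases Finset.mem_insert.mp (Finset.mem_sdiff.mp hy).1 with h | h
        · omega
        · exact (Nat.prime_of_mem_primeFactors h).two_le
      have h9 : 0 ≤ ∏ x ∈ T 0, (1 - (x : ℚ)⁻¹) := (X_pos fun y hy => (hT5 y hy).1.two_le).le
      nlinarith
    have hpinv : (p : ℚ)⁻¹ ≤ 7⁻¹ := inv_anti₀ (by norm_num) hp0
    have hX0' : (6 / 7 : ℚ) * (5754 / 10000) ≤ X (T 0) := by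
      refine le_trans ?_ hX0
      exact mul_le_mul (by linarith) hx (by norm_num) (by linarith)
    have hVle : V s T ≤ 7 / 5 := by
      have : V s T * (3 * p - 1) ≤ 7 / 5 * (3 * p - 1) := by rw [hV]; linarith
      exact le_of_mul_le_mul_right this (by linarith)
    have h2 : (1 + ((6 / 7 : ℚ) * (5754 / 10000)) / 2) * (1 + (3102 / 10000) / 2) ≤ (1 + X (T 0) / 2) * (1 + X (T (s - 1)) / 2) :=
      mul_le_mul (by linarith) (by linarith) (by norm_num) (by linarith)
    have h3 : (7 / 5 : ℚ) < (1 + ((6 / 7 : ℚ) * (5754 / 10000)) / 2) * (1 + (3102 / 10000) / 2) := by norm_num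
    linarith
  · have hp1 : (600 : ℚ) ≤ p := by exact_mod_cast hge
    have hVle : V s T ≤ 1.3342 := by
      have : V s T * (3 * p - 1) ≤ 1.3342 * (3 * p - 1) := by rw [hV]; linarith
      exact le_of_mul_le_mul_right this (by linarith)
    have h2 : (1 + (3102 / 10000 : ℚ) / 2) * (1 + (3102 / 10000) / 2) ≤ (1 + X (T 0) / 2) * (1 + X (T (s - 1)) / 2) :=
      mul_le_mul (by linarith) (by linarith) (by norm_num) (by linarith)
    norm_num at h2 hVle
    linarith

end Pool.Agent.Helper15.CY
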