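import Pool.Agent.Helper15.CY.Long
import Pool.Agent.Helper66.AF.ZM

set_option autoImplicit false
open Nat Filter N9cdb51e1

namespace Pool.Agent.Helper15.CY

open Finset Pool.Agent.Helper51.Phi

/-- Mertens: a set of `k` odd primes has `∏ (1 - 1/p) ≥ c / log k`. -/
lemma X_mertens : ∃ c : ℝ, 0 < c ∧ ∀ (T : Finset ℕ) (k : ℕ), (∀ y ∈ T, y.Prime ∧ 3 ≤ y) → T.card ≤ k → 3 ≤ k →
    c / Real.log k ≤ (X T : ℝ) := by
  obtain ⟨C, hC, hM⟩ := Pool.Agent.Helper66.AF.mertens_upper
  refine ⟨Real.exp (-(C + 2)), Real.exp_pos _, fun T k hT hk hk3 => ?_⟩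
  have hk0 : (3 : ℝ) ≤ k := by exact_mod_cast hk3
  have hlogk : 0 < Real.log k := Real.log_pos (by linarith)
  -- the sum of the reciprocals
  have h1 : ∑ t ∈ T, (1 : ℝ) / t ≤ Real.log (Real.log k) + C + 1 := by
    have e1 : ∑ t ∈ T, (1 : ℝ) / t = ∑ t ∈ T.filter (· ≤ k), (1 : ℝ) / t + ∑ t ∈ T.filter (fun t => ¬ t ≤ k), (1 : ℝ) / t :=
      (Finset.sum_filter_add_sum_filter_not T _ _).symm
    have e2 : ∑ t ∈ T.filter (· ≤ k), (1 : ℝ) / t ≤ Real.log (Real.log k) + C := by
      refine le_trans (Finset.sum_le_sum_of_subset_of_nonneg ?_ fun _ _ _ => by positivity) (hM k hk3)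
      intro t ht
      rw [Finset.mem_filter] at ht
      have := hT t ht.1
      rw [Pool.Agent.Helper5.RM.PP, Finset.mem_filter, Finset.mem_Icc]
      exact ⟨⟨by omega, ht.2⟩, this.1⟩
    have e3 : ∑ t ∈ T.filter (fun t => ¬ t ≤ k), (1 : ℝ) / t ≤ 1 := by
      calc ∑ t ∈ T.filter (fun t => ¬ t ≤ k), (1 : ℝ) / t ≤ ∑ t ∈ T.filter (fun t => ¬ t ≤ k), (1 : ℝ) / k := by
            refine Finset.sum_le_sum fun t ht => ?_
            rw [Finset.mem_filter] at ht
            have : (k : ℝ) ≤ t := by exact_mod_cast (by omega : k ≤ t)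
            exact one_div_le_one_div_of_le (by linarith) this
        _ = ((T.filter (fun t => ¬ t ≤ k)).card : ℝ) / k := by rw [Finset.sum_const, nsmul_eq_mul, mul_one_div]
        _ ≤ 1 := by
            rw [div_le_one (by linarith)]
            exact_mod_cast (Finset.card_filter_le _ _).trans hk
    linarith
  -- the telescoping sum
  have h2 : ∀ t ∈ T, (1 : ℝ) / ((t : ℝ) - 1) = 1 / t + (1 / ((t : ℝ) - 1) - 1 / t) := fun t _ => by ring
  have h3 : ∑ t ∈ T, (1 / ((t : ℝ) - 1) - 1 / t) ≤ 1 := by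
    set M := T.sup id
    have hsub' : T ⊆ (Finset.range (M + 1)).filter (2 ≤ ·) := by
      intro t ht
      have h4 := hT t ht
      have h5 : t ≤ T.sup id := Finset.le_sup (f := id) ht
      rw [Finset.mem_filter, Finset.mem_range]
      exact ⟨by omega, by omega⟩
    have hnn : ∀ t ∈ (Finset.range (M + 1)).filter (2 ≤ ·), t ∉ T → 0 ≤ (1 / ((t : ℝ) - 1) - 1 / t) := by
      intro t ht _
      rw [Finset.mem_filter] at ht
      have : (2 : ℝ) ≤ t := by exact_mod_cast ht.2
      have := one_div_le_one_div_of_le (show (0 : ℝ) < (t : ℝ) - 1 by linarith) (show (t : ℝ) - 1 ≤ t by linarith)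
      linarith
    refine (Finset.sum_le_sum_of_subset_of_nonneg hsub' hnn).trans ?_
    have htel : ∀ M : ℕ, ∑ t ∈ (Finset.range (M + 1)).filter (2 ≤ ·), (1 / ((t : ℝ) - 1) - 1 / t) ≤ 1 - 1 / ((max M 1 : ℕ) : ℝ) := by
      intro M
      induction M with
      | zero =>
        have : (Finset.range (0 + 1)).filter (2 ≤ ·) = ∅ := by decide
        rw [this]
        simp
      | succ M ih =>
        rw [Finset.range_add_one, Finset.filter_insert]
        split_ifs with hM
        · rw [Finset.sum_insert (by simp)]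
          have hM1 : max M 1 = M := by omega
          have hM2 : max (M + 1) 1 = M + 1 := by omega
          rw [hM1] at ih
          rw [hM2]
          push_cast
          have : ((M : ℝ) + 1 - 1) = M := by ring
          rw [this]
          linarith
        · have hM1 : max (M + 1) 1 = max M 1 := by omega
          rw [hM1]
          exact ih
    refine (htel M).trans ?_
    have : (0 : ℝ) ≤ 1 / ((max M 1 : ℕ) : ℝ) := by positivity
    linarith
  -- the product
  have h4 : Real.exp (-∑ t ∈ T, (1 : ℝ) / ((t : ℝ) - 1)) ≤ (X T : ℝ) := by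
    unfold X
    rw [← Finset.sum_neg_distrib, Real.exp_sum]
    push_cast
    refine Finset.prod_le_prod (fun _ _ => (Real.exp_pos _).le) fun t ht => ?_
    have h5 : (3 : ℝ) ≤ t := by exact_mod_cast (hT t ht).2
    have h6 : (t : ℝ) / ((t : ℝ) - 1) ≤ Real.exp (1 / ((t : ℝ) - 1)) := by
      have := Real.add_one_le_exp (1 / ((t : ℝ) - 1))
      have h7 : (t : ℝ) / ((t : ℝ) - 1) = 1 / ((t : ℝ) - 1) + 1 := by
        have h9 : (t : ℝ) - 1 ≠ 0 := by linarith
        rw [div_add_one h9]
        congr 1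
        ring
      linarith
    rw [Real.exp_neg]
    have h8 : (1 : ℝ) - (t : ℝ)⁻¹ = ((t : ℝ) / ((t : ℝ) - 1))⁻¹ := by
      rw [inv_div]
      field_simp
    rw [h8]
    refine inv_anti₀ ?_ h6
    exact _root_.div_pos (by linarith) (by linarith)
  have h5 : ∑ t ∈ T, (1 : ℝ) / ((t : ℝ) - 1) ≤ Real.log (Real.log k) + (C + 2) := by
    rw [Finset.sum_congr rfl h2, Finset.sum_add_distrib]
    linarith
  calc Real.exp (-(C + 2)) / Real.log k = Real.exp (-(Real.log (Real.log k) + (C + 2))) := by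
        rw [show -(Real.log (Real.log k) + (C + 2)) = -(C + 2) + -Real.log (Real.log k) by ring, Real.exp_add,
          Real.exp_neg (Real.log (Real.log k)), Real.exp_log hlogk, div_eq_mul_inv]
    _ ≤ Real.exp (-∑ t ∈ T, (1 : ℝ) / ((t : ℝ) - 1)) := Real.exp_le_exp.mpr (by linarith)
    _ ≤ _ := h4

/-- The chain has a term with many prime factors. -/
theorem many_primes : ∃ c : ℝ, 0 < c ∧ ∀ {p e q s : ℕ}, p.Prime → p % 8 = 7 → 1 ≤ e → 4 * q + 1 = 3 * p → 2 ≤ s →
    h^[s] (p ^ (e - 1) * q) = p ^ e → (∀ i < s, Odd (h^[i] (p ^ (e - 1) * q))) →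
    ∃ i < s, 46 ≤ (h^[i] (p ^ (e - 1) * q)).primeFactors.card ∧
      Real.exp (c * s) ≤ (h^[i] (p ^ (e - 1) * q)).primeFactors.card := by
  obtain ⟨c, hc, hX⟩ := X_mertens
  refine ⟨c, hc, ?_⟩
  intro p e q s hp hp8 he hq hs hend hodd
  have hp7 : 7 ≤ p := by omega
  have hV := chain_V hp hp7 he hq hend
  set T : ℕ → Finset ℕ := fun i => (h^[i] (p ^ (e - 1) * q)).primeFactors with hT
  have hT3 : ∀ i < s, ∀ y ∈ T i, 3 ≤ y := entries hodd
  have hTp : ∀ i < s, ∀ y ∈ T i, y.Prime ∧ 3 ≤ y := fun i hi y hy => ⟨(odd_primeFactors (hodd i hi) y hy).1, hT3 i hi y hy⟩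
  obtain ⟨i0, hi0, hmax⟩ := Finset.exists_max_image (range s) (fun i => (T i).card) ⟨0, Finset.mem_range.mpr (by omega)⟩
  rw [Finset.mem_range] at hi0
  have h46 : 46 ≤ (T i0).card := by
    by_contra hcon
    push Not at hcon
    exact no_long45 hp hp8 he hq hs hend hodd fun i hi => by
      have := hmax i (Finset.mem_range.mpr hi)
      simp only [hT] at this hcon ⊢
      omega
  refine ⟨i0, hi0, h46, ?_⟩
  set k := (T i0).card with hk
  have hlow : ∀ i ∈ range s, 1 + (c / Real.log k) / 2 ≤ ((1 + X (T i) / 2 : ℚ) : ℝ) := by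
    intro i hi
    have h1 := hX (T i) k (hTp i (Finset.mem_range.mp hi)) (hmax i hi) (by omega)
    push_cast
    linarith
  have hk0 : (46 : ℝ) ≤ k := by exact_mod_cast h46
  have hlogk : 0 < Real.log k := Real.log_pos (by linarith)
  have hVlow : (1 + (c / Real.log k) / 2) ^ s ≤ ((V s T : ℚ) : ℝ) := by
    unfold V
    push_cast
    have : (1 + (c / Real.log k) / 2) ^ s = ∏ i ∈ range s, (1 + (c / Real.log k) / 2) := by
      rw [Finset.prod_const, Finset.card_range]
    rw [this]
    refine Finset.prod_le_prod (fun _ _ => by positivity) fun i hi => ?_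
    have := hlow i hi
    push_cast at this
    exact this
  have hb : (1 : ℝ) + s * ((c / Real.log k) / 2) ≤ (1 + (c / Real.log k) / 2) ^ s := by
    have h0 : (0 : ℝ) ≤ (c / Real.log k) / 2 := by positivity
    exact one_add_mul_le_pow (by linarith) s
  have hp0 : (7 : ℚ) ≤ p := by exact_mod_cast hp7
  have hVle : V s T ≤ 3 / 2 := by
    have : V s T * (3 * p - 1) ≤ 3 / 2 * (3 * p - 1) := by rw [hV]; linarith
    exact le_of_mul_le_mul_right this (by linarith)
  have hVle' : ((V s T : ℚ) : ℝ) ≤ 3 / 2 := by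
    have := (Rat.cast_le (K := ℝ)).mpr hVle
    push_cast at this
    exact this
  have h5 : (s : ℝ) * (c / Real.log k) ≤ 1 := by linarith
  have h6 : c * s ≤ Real.log k := by
    have h7 : (s : ℝ) * (c / Real.log k) * Real.log k = c * s := by field_simp
    nlinarith
  calc Real.exp (c * s) ≤ Real.exp (Real.log k) := Real.exp_le_exp.mpr h6
    _ = k := Real.exp_log (by linarith)

end Pool.Agent.Helper15.CY
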