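import Pool.Agent.Helper15.CY.Sound

set_option autoImplicit false
set_option maxRecDepth 100000

namespace Pool.Agent.Helper15.CY

open Finset

def ex6 : List (List ℕ) := [[1297, 37, 7, 5], [1307, 37, 7, 5], [1319, 37, 7, 5], [1327, 37, 7, 5]]

theorem r2 : srch [] 1 [] 1 1 1 = true := by decide +kernel
theorem r3 : srch [] 2 [] 1 1 1 = true := by decide +kernel
theorem r4 : srch [] 3 [] 1 1 1 = true := by decide +kernel
theorem r5 : srch [] 4 [] 1 1 1 = true := by decide +kernel
theorem r6 : srch ex6 5 [] 1 1 1 = true := by decide +kernel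
theorem b1307 : base [1307, 37, 7, 5] 1692565 1128384 1307 = true := by decide +kernel
theorem b1319 : base [1319, 37, 7, 5] 1708105 1138752 1319 = true := by decide +kernel
theorem b1327 : base [1327, 37, 7, 5] 1718465 1145664 1327 = true := by decide +kernel

/-- The prefix `5 · 7 · 37 · 1297`. -/
theorem d1297 : Done [1297, 37, 7, 5] 1679615 1119744 1297 := by
  intro S hS hg hE
  exfalso
  obtain ⟨x, y, hxy, rfl⟩ : ∃ x y, x < y ∧ S = {x, y} := by
    obtain ⟨a, b, hab, rfl⟩ := Finset.card_eq_two.mp hS
    rcases Nat.lt_or_ge a b with h | h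
    · exact ⟨a, b, h, rfl⟩
    · exact ⟨b, a, by omega, Finset.pair_comm a b⟩
  have hxm : x ∈ ({x, y} : Finset ℕ) := Finset.mem_insert_self x _
  have hym : y ∈ ({x, y} : Finset ℕ) := Finset.mem_insert_of_mem (Finset.mem_singleton_self y)
  have hxp := hg.prime x hxm
  have hS2 : ∀ z ∈ ({x, y} : Finset ℕ), 2 ≤ z := fun z hz => (hg.prime z hz).two_le
  have hlow := low_bound hS2 hE hxm
  have hx : 1679616 < x := by omega
  unfold Eqn at hE
  rw [Finset.prod_pair (by omega : x ≠ y), Finset.prod_pair (by omega : x ≠ y)] at hE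
  obtain ⟨a, ha⟩ : ∃ a, x = 1679616 + a := ⟨x - 1679616, by omega⟩
  obtain ⟨b, hb⟩ : ∃ b, y = 1679616 + b := ⟨y - 1679616, by omega⟩
  have hab : a * b = 5953 * 473896897 := by
    rw [ha, hb, show 1679616 + a - 1 = 1679615 + a by omega, show 1679616 + b - 1 = 1679615 + b by omega] at hE
    have h1 : 3 * 1119744 * ((1679615 + a) * (1679615 + b)) = 2 * (1679615 * ((1679616 + a) * (1679616 + b)) + 1) := hE
    have h2 : 3 * 1119744 * ((1679615 + a) * (1679615 + b)) = 3359232 * (a * b) + 3359232 * 1679615 * (a + b) +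
        3359232 * (1679615 * 1679615) := by ring
    have h3 : 2 * (1679615 * ((1679616 + a) * (1679616 + b)) + 1) = 3359230 * (a * b) + 3359230 * 1679616 * (a + b) +
        3359230 * (1679616 * 1679616) + 2 := by ring
    omega
  have hp1 : Nat.Prime 5953 := by norm_num
  have hp2 : Nat.Prime 473896897 := by norm_num
  have hlt : a < b := by omega
  have ha1 : a = 1 ∨ a = 5953 := by
    have hdvd : 473896897 ∣ a * b := ⟨5953, by rw [hab]⟩
    rcases (Nat.Prime.dvd_mul hp2).mp hdvd with h | h
    · exfalso
      obtain ⟨c, hc⟩ := h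
      have hc0 : 0 < c := by
        rcases Nat.eq_zero_or_pos c with h0 | h0
        · subst h0; omega
        · exact h0
      have h1 : 473896897 ≤ a := by rw [hc]; omega
      have h2 : 473896897 * 473896897 ≤ a * b := Nat.mul_le_mul h1 (by omega)
      omega
    · obtain ⟨c, hc⟩ := h
      have h1 : a * c = 5953 := by
        have : a * (473896897 * c) = 5953 * 473896897 := by rw [← hc]; exact hab
        have h3 : (a * c) * 473896897 = 5953 * 473896897 := by rw [← this]; ring
        exact Nat.eq_of_mul_eq_mul_right (by norm_num) h3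
      exact (Nat.dvd_prime hp1).mp ⟨c, h1.symm⟩
  rcases ha1 with h | h
  · have h1 : x = 17 * 98801 := by omega
    rw [h1] at hxp
    exact (by norm_num : ¬ Nat.Prime (17 * 98801)) hxp
  · have h1 : x = 97 * 17377 := by omega
    rw [h1] at hxp
    exact (by norm_num : ¬ Nat.Prime (97 * 17377)) hxp

lemma ex6_done : ∀ pr ∈ ex6, Done pr pr.prod (pr.map (fun x => x - 1)).prod (pr.headD 1) := by
  intro pr hpr
  simp only [ex6, List.mem_cons, List.not_mem_nil, or_false] at hpr
  rcases hpr with rfl | rfl | rfl | rfl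
  · exact d1297
  · exact base_sound (by simp) b1307
  · exact base_sound (by simp) b1319
  · exact base_sound (by simp) b1327

/-- Odd `q` with `3 φ(q) = 2 (q + 1)` and at most six prime factors. -/
theorem six {q : ℕ} (hq : q % 2 = 1) (h : 3 * Nat.totient q = 2 * (q + 1)) (hc : q.primeFactors.card ≤ 6) :
    q = 5 ∨ q = 35 ∨ q = 1295 ∨ q = 1679615 := by
  have hq0 : q ≠ 0 := by rintro rfl; simp at hq
  have hcop : ∀ l, l.Prime → l ∣ q → ¬ l ∣ Nat.totient q := by
    intro l hl h1 h2
    have h3 : l ∣ 2 * q + 2 := by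
      rw [show 2 * q + 2 = 3 * Nat.totient q by omega]
      exact h2.mul_left 3
    have h4 : l ∣ 2 := (Nat.dvd_add_right (h1.mul_left 2)).mp h3
    have h5 : l = 2 := (Nat.prime_dvd_prime_iff_eq hl Nat.prime_two).mp h4
    subst h5
    omega
  have hsq : Squarefree q := by
    rw [Nat.squarefree_iff_prime_squarefree]
    intro l hl h1
    apply hcop l hl ((Dvd.intro _ rfl).trans h1)
    have h2 : Nat.totient (l * l) ∣ Nat.totient q := Nat.totient_dvd_of_dvd h1
    have h3 : Nat.totient (l * l) = l * (l - 1) := by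
      rw [← sq, Nat.totient_prime_pow hl (by norm_num)]
      simp
    rw [h3] at h2
    exact (Dvd.intro _ rfl).trans h2
  have hprod : ∏ x ∈ q.primeFactors, x = q := Nat.prod_primeFactors_of_squarefree hsq
  have htot : Nat.totient q = ∏ x ∈ q.primeFactors, (x - 1) := by
    have := Nat.totient_mul_prod_primeFactors q
    rw [hprod, mul_comm] at this
    exact Nat.eq_of_mul_eq_mul_left (Nat.pos_of_ne_zero hq0) this
  have hE : Eqn 1 1 q.primeFactors := by
    unfold Eqn
    rw [← htot, hprod]
    omega
  have hodd : ∀ x ∈ q.primeFactors, x % 2 = 1 := by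
    intro x hx
    have h1 := Nat.dvd_of_mem_primeFactors hx
    by_contra h2
    have h3 : 2 ∣ x := by omega
    have := h3.trans h1
    omega
  have hgood : Good [] 1 q.primeFactors := by
    constructor
    · exact fun x hx => Nat.prime_of_mem_primeFactors hx
    · exact hodd
    · exact fun x hx => (Nat.prime_of_mem_primeFactors hx).one_lt
    · intro x _ y hy
      simp at hy
    · intro x hx y hy hxy
      have hxp := Nat.prime_of_mem_primeFactors hx
      have hyp := Nat.prime_of_mem_primeFactors hy
      apply hcop y hyp (Nat.dvd_of_mem_primeFactors hy)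
      have h1 : y ∣ x - 1 := by
        have h2 := Nat.div_add_mod x y
        rw [hxy] at h2
        exact ⟨x / y, by omega⟩
      have h3 : Nat.totient x ∣ Nat.totient q := Nat.totient_dvd_of_dvd (Nat.dvd_of_mem_primeFactors hx)
      rw [Nat.totient_prime hxp] at h3
      exact h1.trans h3
  have hfin : ∀ t, q.primeFactors.card = t + 2 → 1 * ∏ x ∈ q.primeFactors, x ∈ known → q = 35 ∨ q = 1295 ∨ q = 1679615 := by
    intro t _ h1
    rw [one_mul, hprod] at h1
    simpa [known] using h1
  have hnil : ∀ pr ∈ ([] : List (List ℕ)), Done pr pr.prod (pr.map (fun x => x - 1)).prod (pr.headD 1) := by simp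
  rcases Nat.lt_or_ge q.primeFactors.card 2 with h2 | h2
  · left
    rcases Nat.eq_zero_or_pos q.primeFactors.card with h0 | h0
    · rw [Finset.card_eq_zero] at h0
      rw [h0] at hprod
      simp at hprod
      rw [← hprod] at h
      simp at h
    · obtain ⟨a, ha⟩ := Finset.card_eq_one.mp (by omega : q.primeFactors.card = 1)
      rw [ha] at hprod htot
      simp only [Finset.prod_singleton] at hprod htot
      rw [htot, hprod] at h
      omega
  · right
    have h3 : q.primeFactors.card = 2 ∨ q.primeFactors.card = 3 ∨ q.primeFactors.card = 4 ∨ q.primeFactors.card = 5 ∨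
        q.primeFactors.card = 6 := by omega
    rcases h3 with h3 | h3 | h3 | h3 | h3
    · exact hfin 0 h3 (srch_sound hnil 0 [] 1 1 1 (by simp) (by simp) (by simp) (by simp) r2 _ h3 hgood hE)
    · exact hfin 1 h3 (srch_sound hnil 1 [] 1 1 1 (by simp) (by simp) (by simp) (by simp) r3 _ h3 hgood hE)
    · exact hfin 2 h3 (srch_sound hnil 2 [] 1 1 1 (by simp) (by simp) (by simp) (by simp) r4 _ h3 hgood hE)
    · exact hfin 3 h3 (srch_sound hnil 3 [] 1 1 1 (by simp) (by simp) (by simp) (by simp) r5 _ h3 hgood hE)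
    · exact hfin 4 h3 (srch_sound ex6_done 4 [] 1 1 1 (by simp) (by simp) (by simp) (by simp) r6 _ h3 hgood hE)

end Pool.Agent.Helper15.CY
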