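import Mathlib

set_option autoImplicit false
set_option maxRecDepth 100000

namespace Pool.Agent.Helper15.CY

/-- `z` has a small proper factor. -/
def sf (z : ℕ) : Bool :=
  [2, 3, 5, 7, 11, 13, 17, 19, 23, 29, 31, 37, 41, 43, 47, 53, 59, 61].any (fun d => Nat.blt d z && Nat.beq (z % d) 0)

/-- The test of the last but one prime. -/
def t2 (D F3 N x : ℕ) : Bool :=
  !(Nat.beq ((F3 * (x - 1) + 2) % (D * x - F3)) 0) ||
    (Nat.ble ((F3 * (x - 1) + 2) / (D * x - F3)) x || sf x || sf ((F3 * (x - 1) + 2) / (D * x - F3)) ||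
      [35, 1295, 1679615].any (fun z => Nat.beq z (N * x * ((F3 * (x - 1) + 2) / (D * x - F3)))))

/-- The tests at `a, a + 2, ..., a + 2 (n-1)`. -/
def go (D F3 N : ℕ) : ℕ → ℕ → ℕ → Bool
  | 0, _, _ => false
  | f + 1, n, a => if Nat.ble n 1 then (Nat.beq n 0 || t2 D F3 N a)
      else go D F3 N f (n / 2) a && go D F3 N f (n - n / 2) (a + 2 * (n / 2))

/-- The odd residues modulo `210` that are not `0` modulo `3` and neither `0` nor `1` modulo `5` and modulo `7`. -/
def res210 : List ℕ :=
  [13, 17, 19, 23, 37, 47, 53, 59, 67, 73, 79, 83, 89, 97, 103, 107, 109, 137, 139, 143, 149, 157, 163, 167, 173, 179, 187, 193,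
    199, 209]

lemma res210_bool : (List.range 210).all (fun r => r % 2 == 0 || r % 3 == 0 || r % 5 == 0 || r % 5 == 1 || r % 7 == 0 ||
    r % 7 == 1 || res210.contains r) = true := by
  decide +kernel

lemma res210_spec {r : ℕ} (hr : r < 210) (h2 : r % 2 = 1) (h3 : r % 3 ≠ 0) (h5 : r % 5 ≠ 0) (h5' : r % 5 ≠ 1) (h7 : r % 7 ≠ 0)
    (h7' : r % 7 ≠ 1) : r ∈ res210 := by
  have h := List.all_eq_true.mp res210_bool r (List.mem_range.mpr hr)
  simp only [Bool.or_eq_true, beq_iff_eq, List.contains_iff_mem] at h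
  rcases h with ((((((h | h) | h) | h) | h) | h) | h)
  · omega
  · exact absurd h h3
  · exact absurd h h5
  · exact absurd h h5'
  · exact absurd h h7
  · exact absurd h h7'
  · exact h

/-- The tests at the numbers `210 j + r`, `b ≤ j < b + n`. -/
def go210 (D F3 N : ℕ) : ℕ → ℕ → ℕ → Bool
  | 0, _, _ => false
  | f + 1, n, b => if Nat.ble n 1 then (Nat.beq n 0 || res210.all (fun r => t2 D F3 N (210 * b + r)))
      else go210 D F3 N f (n / 2) b && go210 D F3 N f (n - n / 2) (b + n / 2)

lemma go_spec {D F3 N f : ℕ} : ∀ {n a : ℕ}, go D F3 N f n a = true → ∀ i < n, t2 D F3 N (a + 2 * i) = true := by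
  induction f with
  | zero => intro n a h; simp [go] at h
  | succ f ih =>
    intro n a h i hi
    rw [go] at h
    by_cases hn : Nat.ble n 1 = true
    · rw [if_pos hn] at h
      have hn1 : n ≤ 1 := Nat.le_of_ble_eq_true hn
      have hi0 : i = 0 := by omega
      have hn2 : n ≠ 0 := by omega
      subst hi0
      rw [Bool.or_eq_true] at h
      rcases h with h | h
      · exact absurd (Nat.eq_of_beq_eq_true h) hn2
      · simpa using h
    · rw [if_neg hn, Bool.and_eq_true] at h
      rcases Nat.lt_or_ge i (n / 2) with h1 | h1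
      · exact ih h.1 i h1
      · have h2 := ih h.2 (i - n / 2) (by omega)
        rwa [show a + 2 * (n / 2) + 2 * (i - n / 2) = a + 2 * i by omega] at h2

lemma go210_spec {D F3 N f : ℕ} : ∀ {n b : ℕ}, go210 D F3 N f n b = true → ∀ i < n, ∀ r ∈ res210,
    t2 D F3 N (210 * (b + i) + r) = true := by
  induction f with
  | zero => intro n b h; simp [go210] at h
  | succ f ih =>
    intro n b h i hi r hr
    rw [go210] at h
    by_cases hn : Nat.ble n 1 = true
    · rw [if_pos hn] at h
      have hn1 : n ≤ 1 := Nat.le_of_ble_eq_true hn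
      have hi0 : i = 0 := by omega
      have hn2 : n ≠ 0 := by omega
      subst hi0
      rw [Bool.or_eq_true] at h
      rcases h with h | h
      · exact absurd (Nat.eq_of_beq_eq_true h) hn2
      · rw [List.all_eq_true] at h
        exact h r hr
    · rw [if_neg hn, Bool.and_eq_true] at h
      rcases Nat.lt_or_ge i (n / 2) with h1 | h1
      · exact ih h.1 i h1 r hr
      · have h2 := ih h.2 (i - n / 2) (by omega) r hr
        rwa [show 210 * (b + n / 2 + (i - n / 2)) = 210 * (b + i) by congr 1; omega] at h2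

def lo2 (D F3 last : ℕ) : ℕ := max last (F3 / D)

/-- The search for the last two primes. -/
def base (pr : List ℕ) (N F last : ℕ) : Bool :=
  if pr.contains 5 && pr.contains 7 then
    go210 (3 * F - 2 * N) (3 * F) N 22
      (((3 * F * 2 + 2) / (3 * F - 2 * N)) / 210 + 1 - (lo2 (3 * F - 2 * N) (3 * F) last + 1) / 210)
      ((lo2 (3 * F - 2 * N) (3 * F) last + 1) / 210)
  else
    go (3 * F - 2 * N) (3 * F) N 22
      (((3 * F * 2 + 2) / (3 * F - 2 * N) + 2 - (lo2 (3 * F - 2 * N) (3 * F) last + 1) / 2 * 2) / 2)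
      ((lo2 (3 * F - 2 * N) (3 * F) last + 1) / 2 * 2 + 1)

/-- The search with `t + 1` primes to choose; the prefixes in `ex` are skipped. -/
def srch (ex : List (List ℕ)) : ℕ → List ℕ → ℕ → ℕ → ℕ → Bool
  | 0, _, _, _, _ => false
  | t + 1, pr, N, F, last =>
      match t with
      | 0 => ex.contains pr || base pr N F last
      | _ + 1 => (List.range ((3 * F * (t + 2) + 2) / (3 * F - 2 * N) - lo2 (3 * F - 2 * N) (3 * F) last)).all fun i =>
          (Nat.beq ((lo2 (3 * F - 2 * N) (3 * F) last + 1 + i) % 2) 0 || sf (lo2 (3 * F - 2 * N) (3 * F) last + 1 + i) ||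
            pr.any (fun y => Nat.beq ((lo2 (3 * F - 2 * N) (3 * F) last + 1 + i) % y) 1)) ||
          srch ex t ((lo2 (3 * F - 2 * N) (3 * F) last + 1 + i) :: pr) (N * (lo2 (3 * F - 2 * N) (3 * F) last + 1 + i))
            (F * (lo2 (3 * F - 2 * N) (3 * F) last + i)) (lo2 (3 * F - 2 * N) (3 * F) last + 1 + i)

end Pool.Agent.Helper15.CY
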