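import Pool.Agent.Helper15.CY.Gap
import Pool.Agent.Helper15.CY.Search

set_option autoImplicit false

namespace Pool.Agent.Helper15.CY

open Finset

/-- `3 φ = 2 (q + 1)` for a partial product `N`, `F = φ(N)`, and the remaining primes `S`. -/
def Eqn (N F : ℕ) (S : Finset ℕ) : Prop := 3 * F * ∏ x ∈ S, (x - 1) = 2 * (N * ∏ x ∈ S, x + 1)

lemma sf_prime {z : ℕ} (hz : z.Prime) : sf z = false := by
  unfold sf
  rw [List.any_eq_false]
  intro d hd h
  rw [Bool.and_eq_true] at h
  have h1 : d < z := by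
    have := h.1
    rwa [Nat.blt_eq] at this
  have h2 : z % d = 0 := Nat.eq_of_beq_eq_true h.2
  rcases (Nat.dvd_prime hz).mp (Nat.dvd_of_mod_eq_zero h2) with h3 | h3
  · subst h3
    simp at hd
  · omega

section

variable {N F : ℕ} {S : Finset ℕ}

lemma pos_prods (hS : ∀ x ∈ S, 2 ≤ x) : 0 < ∏ x ∈ S, (x - 1) ∧ ∏ x ∈ S, (x - 1) ≤ ∏ x ∈ S, x := by
  constructor
  · exact Finset.prod_pos fun x hx => by have := hS x hx; omega
  · exact Finset.prod_le_prod' fun x _ => Nat.sub_le _ _

lemma two_lt (hS : ∀ x ∈ S, 2 ≤ x) (h : Eqn N F S) : 2 * N < 3 * F := by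
  obtain ⟨h1, h2⟩ := pos_prods hS
  unfold Eqn at h
  by_contra hcon
  push Not at hcon
  have h3 : 3 * F * ∏ x ∈ S, (x - 1) ≤ 2 * N * ∏ x ∈ S, x := Nat.mul_le_mul hcon h2
  have h4 : 2 * (N * ∏ x ∈ S, x + 1) = 2 * N * ∏ x ∈ S, x + 2 := by ring
  omega

lemma low_bound (hS : ∀ x ∈ S, 2 ≤ x) (h : Eqn N F S) {x : ℕ} (hx : x ∈ S) : 3 * F < (3 * F - 2 * N) * x := by
  classical
  have h2N := two_lt hS h
  unfold Eqn at h
  rw [← Finset.mul_prod_erase S _ hx, ← Finset.mul_prod_erase S (fun x => x) hx] at h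
  have hS' : ∀ y ∈ S.erase x, 2 ≤ y := fun y hy => hS y (Finset.mem_of_mem_erase hy)
  obtain ⟨h1, h2⟩ := pos_prods hS'
  set Q := ∏ y ∈ S.erase x, (y - 1)
  set P := ∏ y ∈ S.erase x, y
  have hx2 := hS x hx
  have h3 : 2 * N * x < 3 * F * (x - 1) := by
    by_contra hcon
    push Not at hcon
    have h4 : 3 * F * (x - 1) * Q ≤ 2 * N * x * P := Nat.mul_le_mul hcon h2
    have h5 : 3 * F * ((x - 1) * Q) = 3 * F * (x - 1) * Q := by ring
    have h6 : 2 * (N * (x * P) + 1) = 2 * N * x * P + 2 := by ring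
    omega
  obtain ⟨z, rfl⟩ : ∃ z, x = z + 1 := ⟨x - 1, by omega⟩
  obtain ⟨D, hD⟩ : ∃ D, 3 * F = 2 * N + D := ⟨3 * F - 2 * N, by omega⟩
  rw [Nat.add_sub_cancel] at h3
  have h7 : 3 * F - 2 * N = D := by omega
  rw [h7]
  have h8 : 3 * F * z = 2 * N * z + D * z := by rw [hD]; ring
  have h9 : 2 * N * (z + 1) = 2 * N * z + 2 * N := by ring
  have h10 : D * (z + 1) = D * z + D := by ring
  omega

lemma high_bound (hS : ∀ x ∈ S, 2 ≤ x) (h : Eqn N F S) {x : ℕ} (hx : x ∈ S) (hmin : ∀ y ∈ S, x ≤ y) :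
    (3 * F - 2 * N) * x ≤ 3 * F * S.card + 2 := by
  classical
  have h2N := two_lt hS h
  have hx2 := hS x hx
  have hx0 : (0 : ℚ) < x := by exact_mod_cast (by omega : 0 < x)
  have hP : (0 : ℚ) < ((∏ y ∈ S, y : ℕ) : ℚ) := by
    have : 0 < ∏ y ∈ S, y := Finset.prod_pos fun y hy => by have := hS y hy; omega
    exact_mod_cast this
  have h1 : (1 : ℚ) - (S.card : ℚ) / x ≤ ∏ y ∈ S, (1 - (y : ℚ)⁻¹) := by
    refine le_trans ?_ (prod_one_sub S (fun y : ℕ => (y : ℚ)⁻¹) (fun i _ => by positivity) ?_)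
    · have : ∑ i ∈ S, ((i : ℚ)⁻¹) ≤ ∑ i ∈ S, ((x : ℚ)⁻¹) := by
        refine Finset.sum_le_sum fun i hi => ?_
        exact inv_anti₀ hx0 (by exact_mod_cast hmin i hi)
      rw [Finset.sum_const, nsmul_eq_mul] at this
      rw [div_eq_mul_inv]
      linarith
    · intro i hi
      have : (1 : ℚ) ≤ i := by exact_mod_cast (by have := hS i hi; omega : 1 ≤ i)
      exact inv_le_one_of_one_le₀ this
  have h2 : (∏ y ∈ S, (1 - (y : ℚ)⁻¹)) * ((∏ y ∈ S, y : ℕ) : ℚ) = ((∏ y ∈ S, (y - 1) : ℕ) : ℚ) := by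
    rw [Nat.cast_prod, Nat.cast_prod, ← Finset.prod_mul_distrib]
    refine Finset.prod_congr rfl fun y hy => ?_
    have h3 := hS y hy
    have h4 : (y : ℚ) ≠ 0 := by exact_mod_cast (by omega : y ≠ 0)
    rw [Nat.cast_sub (by omega : 1 ≤ y)]
    field_simp
    simp
  have h3 : (3 : ℚ) * F * ((∏ y ∈ S, (y - 1) : ℕ) : ℚ) = 2 * (N * ((∏ y ∈ S, y : ℕ) : ℚ) + 1) := by
    unfold Eqn at h
    exact_mod_cast h
  have hxP : (x : ℚ) ≤ ((∏ y ∈ S, y : ℕ) : ℚ) := by
    have : x ≤ ∏ y ∈ S, y := by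
      apply Nat.le_of_dvd
      · exact Finset.prod_pos fun y hy => by have := hS y hy; omega
      · exact Finset.dvd_prod_of_mem (fun y => y) hx
    exact_mod_cast this
  set P := ((∏ y ∈ S, y : ℕ) : ℚ)
  set Q := ((∏ y ∈ S, (y - 1) : ℕ) : ℚ)
  have h4 : (x - (S.card : ℚ)) * P ≤ x * Q := by
    have h5 : ((1 : ℚ) - (S.card : ℚ) / x) * P ≤ Q := by
      rw [← h2]
      exact mul_le_mul_of_nonneg_right h1 hP.le
    have h6 : (x - (S.card : ℚ)) * P = x * ((1 - (S.card : ℚ) / x) * P) := by field_simp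
    rw [h6]
    exact mul_le_mul_of_nonneg_left h5 hx0.le
  have h5 : ((3 : ℚ) * F - 2 * N) * x * P ≤ (3 * F * S.card + 2) * P := by
    have hF0 : (0 : ℚ) ≤ F := by positivity
    have h6 : 3 * (F : ℚ) * ((x - (S.card : ℚ)) * P) ≤ 3 * F * (x * Q) := mul_le_mul_of_nonneg_left h4 (by positivity)
    have h7 : 3 * (F : ℚ) * (x * Q) = x * (2 * (N * P + 1)) := by rw [← h3]; ring
    nlinarith
  have h6 : ((3 : ℚ) * F - 2 * N) * x ≤ 3 * F * S.card + 2 := le_of_mul_le_mul_right h5 hP
  have h7 : (((3 * F - 2 * N : ℕ) : ℚ)) = 3 * F - 2 * N := by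
    rw [Nat.cast_sub h2N.le]
    push_cast
    ring
  rw [← h7] at h6
  exact_mod_cast h6

end

/-- The properties of the remaining primes. -/
structure Good (pr : List ℕ) (last : ℕ) (S : Finset ℕ) : Prop where
  prime : ∀ x ∈ S, x.Prime
  odd : ∀ x ∈ S, x % 2 = 1
  gt : ∀ x ∈ S, last < x
  rel : ∀ x ∈ S, ∀ y ∈ pr, x % y ≠ 1
  self : ∀ x ∈ S, ∀ y ∈ S, x % y ≠ 1

def known : List ℕ := [35, 1295, 1679615]

/-- What a test says. -/
lemma t2_sound {N F x y : ℕ} (hx : x.Prime) (hy : y.Prime) (hxy : x < y) (h : Eqn N F {x, y})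
    (ht : t2 (3 * F - 2 * N) (3 * F) N x = true) : N * x * y ∈ known := by
  have hne : x ≠ y := by omega
  have hS : ∀ z ∈ ({x, y} : Finset ℕ), 2 ≤ z := by
    intro z hz
    rcases Finset.mem_insert.mp hz with h1 | h1
    · rw [h1]; exact hx.two_le
    · rw [Finset.mem_singleton.mp h1]; exact hy.two_le
  have hlow := low_bound hS h (Finset.mem_insert_self x _)
  have h2N := two_lt hS h
  unfold Eqn at h
  rw [Finset.prod_pair hne, Finset.prod_pair hne] at h
  have hx2 := hx.two_le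
  have hy2 := hy.two_le
  -- `y u = v`
  have hyu : y * ((3 * F - 2 * N) * x - 3 * F) = 3 * F * (x - 1) + 2 := by
    obtain ⟨a, rfl⟩ : ∃ a, x = a + 1 := ⟨x - 1, by omega⟩
    obtain ⟨b, rfl⟩ : ∃ b, y = b + 1 := ⟨y - 1, by omega⟩
    obtain ⟨D, hD⟩ : ∃ D, 3 * F = 2 * N + D := ⟨3 * F - 2 * N, by omega⟩
    have h7 : 3 * F - 2 * N = D := by omega
    rw [h7] at hlow ⊢
    simp only [Nat.add_sub_cancel] at h ⊢
    zify [hlow.le] at h hD ⊢
    have h8 : (D : ℤ) = 3 * F - 2 * N := by linarith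
    rw [h8]
    linear_combination h
  set u := (3 * F - 2 * N) * x - 3 * F with hu
  have hu0 : 0 < u := by omega
  have hmod : (3 * F * (x - 1) + 2) % u = 0 := by rw [← hyu]; exact Nat.mul_mod_left _ _
  have hdiv : (3 * F * (x - 1) + 2) / u = y := by rw [← hyu]; exact Nat.mul_div_cancel _ hu0
  unfold t2 at ht
  rw [← hu, hmod, hdiv, sf_prime hx, sf_prime hy] at ht
  simp only [Bool.or_eq_true, Bool.not_eq_true', Bool.or_false] at ht
  rcases ht with h1 | h1 | h1
  · exact absurd h1 (by decide)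
  · have := Nat.le_of_ble_eq_true h1
    omega
  · rw [List.any_eq_true] at h1
    obtain ⟨z, hz, hz'⟩ := h1
    have := Nat.eq_of_beq_eq_true hz'
    rw [← this]
    exact hz

/-- The conclusion at a prefix with two primes missing. -/
def Done (pr : List ℕ) (N F last : ℕ) : Prop :=
  ∀ S : Finset ℕ, S.card = 2 → Good pr last S → Eqn N F S → N * ∏ x ∈ S, x ∈ known

lemma base_sound {pr : List ℕ} {N F last : ℕ} (hpr : ∀ y ∈ pr, y ≤ last) (hb : base pr N F last = true) :
    Done pr N F last := by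
  intro S hS hg hE
  -- the two primes in order
  obtain ⟨x, y, hxy, rfl⟩ : ∃ x y, x < y ∧ S = {x, y} := by
    obtain ⟨a, b, hab, rfl⟩ := Finset.card_eq_two.mp hS
    rcases Nat.lt_or_ge a b with h | h
    · exact ⟨a, b, h, rfl⟩
    · exact ⟨b, a, by omega, Finset.pair_comm a b⟩
  have hxm : x ∈ ({x, y} : Finset ℕ) := Finset.mem_insert_self x _
  have hym : y ∈ ({x, y} : Finset ℕ) := Finset.mem_insert_of_mem (Finset.mem_singleton_self y)
  have hxp := hg.prime x hxm
  have hyp := hg.prime y hym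
  have hS2 : ∀ z ∈ ({x, y} : Finset ℕ), 2 ≤ z := fun z hz => (hg.prime z hz).two_le
  have hlow := low_bound hS2 hE hxm
  have hhigh := high_bound hS2 hE hxm (fun z hz => by
    rcases Finset.mem_insert.mp hz with h1 | h1
    · omega
    · rw [Finset.mem_singleton.mp h1]; omega)
  rw [hS] at hhigh
  have h2N := two_lt hS2 hE
  have hD : 0 < 3 * F - 2 * N := by omega
  have hxo := hg.odd x hxm
  have hlast := hg.gt x hxm
  have hlo : lo2 (3 * F - 2 * N) (3 * F) last < x := by
    unfold lo2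
    refine max_lt hlast ?_
    rw [Nat.div_lt_iff_lt_mul hD, mul_comm x]
    exact hlow
  have hhi : x ≤ (3 * F * 2 + 2) / (3 * F - 2 * N) := by
    rw [Nat.le_div_iff_mul_le hD, mul_comm]
    exact hhigh
  rw [Finset.prod_pair (by omega : x ≠ y), ← mul_assoc]
  apply t2_sound hxp hyp hxy hE
  set D := 3 * F - 2 * N with hDd
  set L := lo2 D (3 * F) last with hL
  set H := (3 * F * 2 + 2) / D with hH
  unfold base at hb
  by_cases hc : (pr.contains 5 && pr.contains 7) = true
  · rw [if_pos hc, ← hDd, ← hL, ← hH] at hb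
    rw [Bool.and_eq_true, List.contains_iff_mem, List.contains_iff_mem] at hc
    have h7 := hpr 7 hc.2
    have hnd : ∀ d, d.Prime → d ≤ 7 → x % d ≠ 0 := by
      intro d hd hd7 h0
      have := (Nat.prime_dvd_prime_iff_eq hd hxp).mp (Nat.dvd_of_mod_eq_zero h0)
      omega
    have hr : x % 210 ∈ res210 := by
      apply res210_spec (Nat.mod_lt _ (by norm_num))
      · omega
      · have := hnd 3 (by norm_num) (by norm_num); omega
      · have := hnd 5 (by norm_num) (by norm_num); omega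
      · have := hg.rel x hxm 5 hc.1; omega
      · have := hnd 7 (by norm_num) (by norm_num); omega
      · have := hg.rel x hxm 7 hc.2; omega
    have h1 := go210_spec hb (x / 210 - (L + 1) / 210) (by
      have a1 : (L + 1) / 210 ≤ x / 210 := Nat.div_le_div_right (by omega)
      have a2 : x / 210 ≤ H / 210 := Nat.div_le_div_right hhi
      omega) _ hr
    have h2 : 210 * ((L + 1) / 210 + (x / 210 - (L + 1) / 210)) + x % 210 = x := by
      have a1 : (L + 1) / 210 ≤ x / 210 := Nat.div_le_div_right (by omega)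
      rw [Nat.add_sub_cancel' a1]
      exact Nat.div_add_mod x 210
    rwa [h2] at h1
  · rw [if_neg hc, ← hDd, ← hL, ← hH] at hb
    have h1 := go_spec hb ((x - ((L + 1) / 2 * 2 + 1)) / 2) (by omega)
    have h2 : (L + 1) / 2 * 2 + 1 + 2 * ((x - ((L + 1) / 2 * 2 + 1)) / 2) = x := by omega
    rwa [h2] at h1

/-- Soundness of the search. -/
theorem srch_sound {ex : List (List ℕ)}
    (hex : ∀ pr ∈ ex, Done pr pr.prod (pr.map (fun x => x - 1)).prod (pr.headD 1)) :
    ∀ (t : ℕ) (pr : List ℕ) (N F last : ℕ), N = pr.prod → F = (pr.map (fun x => x - 1)).prod → last = pr.headD 1 →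
      (∀ y ∈ pr, y ≤ last) → srch ex (t + 1) pr N F last = true →
      ∀ S : Finset ℕ, S.card = t + 2 → Good pr last S → Eqn N F S → N * ∏ x ∈ S, x ∈ known := by
  intro t
  induction t with
  | zero =>
    intro pr N F last hN hF hl hpr hs S hS hg hE
    rw [srch] at hs
    rw [Bool.or_eq_true, List.contains_iff_mem] at hs
    rcases hs with h | h
    · subst hN hF hl
      exact hex pr h S hS hg hE
    · exact base_sound hpr h S hS hg hE
  | succ t ih =>
    intro pr N F last hN hF hl hpr hs S hS hg hE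
    have hne : S.Nonempty := by
      rw [← Finset.card_pos]; omega
    set x := S.min' hne with hxd
    have hxm : x ∈ S := S.min'_mem hne
    have hmin : ∀ y ∈ S, x ≤ y := fun y hy => S.min'_le y hy
    have hS2 : ∀ z ∈ S, 2 ≤ z := fun z hz => (hg.prime z hz).two_le
    have hlow := low_bound hS2 hE hxm
    have hhigh := high_bound hS2 hE hxm hmin
    rw [hS] at hhigh
    have h2N := two_lt hS2 hE
    have hD : 0 < 3 * F - 2 * N := by omega
    have hxo := hg.odd x hxm
    have hlast := hg.gt x hxm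
    have hlo : lo2 (3 * F - 2 * N) (3 * F) last < x := by
      unfold lo2
      refine max_lt hlast ?_
      rw [Nat.div_lt_iff_lt_mul hD, mul_comm x]
      exact hlow
    have hhi : x ≤ (3 * F * (t + 1 + 2) + 2) / (3 * F - 2 * N) := by
      rw [Nat.le_div_iff_mul_le hD, mul_comm]
      exact hhigh
    rw [srch, List.all_eq_true] at hs
    simp only [Nat.succ_eq_add_one] at hs
    have h1 := hs (x - (lo2 (3 * F - 2 * N) (3 * F) last + 1)) (by rw [List.mem_range]; omega)
    rw [show lo2 (3 * F - 2 * N) (3 * F) last + 1 + (x - (lo2 (3 * F - 2 * N) (3 * F) last + 1)) = x by omega,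
      show lo2 (3 * F - 2 * N) (3 * F) last + (x - (lo2 (3 * F - 2 * N) (3 * F) last + 1)) = x - 1 by omega,
      sf_prime (hg.prime x hxm)] at h1
    simp only [Bool.or_eq_true, Bool.or_false] at h1
    rcases h1 with (h1 | h1) | h1
    · have := Nat.eq_of_beq_eq_true h1
      omega
    · rw [List.any_eq_true] at h1
      obtain ⟨y, hy, hy'⟩ := h1
      exact absurd (Nat.eq_of_beq_eq_true hy') (hg.rel x hxm y hy)
    · have h2 := ih (x :: pr) (N * x) (F * (x - 1)) x (by rw [List.prod_cons, hN]; ring)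
        (by rw [List.map_cons, List.prod_cons, hF]; ring) (by simp) (by
          intro y hy
          rcases List.mem_cons.mp hy with h | h
          · omega
          · have := hpr y h; omega) h1 (S.erase x) (by rw [Finset.card_erase_of_mem hxm, hS]; omega) ?_ ?_
      · rw [← Finset.mul_prod_erase S (fun x => x) hxm, ← mul_assoc]
        exact h2
      · constructor
        · exact fun z hz => hg.prime z (Finset.mem_of_mem_erase hz)
        · exact fun z hz => hg.odd z (Finset.mem_of_mem_erase hz)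
        · intro z hz
          have a1 := hmin z (Finset.mem_of_mem_erase hz)
          have a2 := Finset.ne_of_mem_erase hz
          omega
        · intro z hz y hy
          rcases List.mem_cons.mp hy with h | h
          · rw [h]; exact hg.self z (Finset.mem_of_mem_erase hz) x hxm
          · exact hg.rel z (Finset.mem_of_mem_erase hz) y h
        · exact fun z hz y hy => hg.self z (Finset.mem_of_mem_erase hz) y (Finset.mem_of_mem_erase hy)
      · unfold Eqn at hE ⊢
        rw [← Finset.mul_prod_erase S _ hxm, ← Finset.mul_prod_erase S (fun x => x) hxm] at hE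
        rw [mul_assoc N x, ← hE]
        ring

end Pool.Agent.Helper15.CY
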